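import Pool.Agent.TH50.SDG6.E

/-!
# SD-G6, part F: the closed two-form `α` (copy of the file of helper50 without guillemets)
-/

set_option autoImplicit false

open scoped ContDiff Topology
open Set

noncomputable section

namespace Pool.Agent.TH179.SDAlpha
open Pool.Agent.TH179.SD Pool.Agent.TH50.SDG6

/-- the smooth primitive of `α` in each chart -/
def nform : Idx → V → V →L[ℝ] ℝ
  | Sum.inl j => nn j
  | Sum.inr c => lw (Sum.inr c)

/-- the two-form -/
def alpha (c : Idx) (q : V) : Alt 2 := extDeriv (fun p => one (nform c p)) q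

lemma contDiff_nform (c : Idx) : ContDiff ℝ ∞ (nform c) := by
  rcases c with j | c
  · exact contDiff_nn j
  · exact contDiff_lw_inr c

lemma contDiff_extDeriv {w : V → Alt 1} (h : ContDiff ℝ ∞ w) : ContDiff ℝ ∞ (extDeriv w) := by
  have h1 : ContDiff ℝ ∞ (fderiv ℝ w) := h.fderiv_right (by simp)
  exact (ContinuousAlternatingMap.alternatizeUncurryFinCLM ℝ V ℝ (n := 1)).contDiff.comp h1

lemma contDiff_alpha (c : Idx) : ContDiff ℝ ∞ (alpha c) :=
  contDiff_extDeriv (contDiff_one (contDiff_nform c))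

lemma minSm : minSmoothness ℝ 2 ≤ (∞ : WithTop ℕ∞) := by
  rw [minSmoothness_of_isRCLikeNormedField]
  exact ENat.LEInfty.out

lemma closed_alpha (c : Idx) (q : V) : extDeriv (alpha c) q = 0 := by
  have h := extDeriv_extDeriv_apply (𝕜 := ℝ) (x := q)
    (contDiff_one (contDiff_nform c)).contDiffAt minSm
  exact h

lemma isOpen_inX (c : Idx) : IsOpen (inX c) := by
  rcases c with j | c
  · exact isOpen_ne_fun (continuous_apply j) continuous_const
  · exact isOpen_univ

lemma contDiffAt_lw_inX {c : Idx} {q : V} (h : q ∈ inX c) : ContDiffAt ℝ ∞ (lw c) q := by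
  rcases c with j | c
  · exact contDiffAt_lw (c := Sum.inl j) h
  · exact (contDiff_lw_inr c).contDiffAt

lemma dl_alpha {c : Idx} {q : V} (h : q ∈ inX c) :
    extDeriv (fun p => one (lw c p)) q = alpha c q := by
  rcases c with j | c
  · have hq : q j ≠ 0 := h
    have h1 : (fun p => one (lw (Sum.inl j) p)) =ᶠ[𝓝 q]
        fun p => one (nn j p) + one (dargj j p) := by
      filter_upwards [(isOpen_inX (Sum.inl j)).mem_nhds h] with p hp
      rw [lw_inl hp, one_add]
    rw [h1.extDeriv_eq]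
    rw [extDeriv_fun_add ((contDiff_one (contDiff_nn j)).differentiable (by simp)).differentiableAt
      ((contDiffAt_one (contDiffAt_dargj hq)).differentiableAt (by simp)), extDeriv_dargj hq,
      add_zero]
    rfl
  · rfl

lemma contDiffAt_tr (hS : TaskSmooth) {c d : Idx} {q : V} (hq : q ∈ O c d) :
    ContDiffAt ℝ ∞ (tr c d) q :=
  (hS c d).2.2.1.contDiffAt ((hS c d).1.mem_nhds hq)

lemma lw_compat (hS : TaskSmooth) {c d : Idx} {q : V} (hq : q ∈ O c d) (hx : q ∈ inX c) :
    lw c q = (lw d (tr c d q)).comp (fderiv ℝ (tr c d) q) := by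
  by_cases hc : q ∈ domW c
  · obtain ⟨h1, h2⟩ := tr_spec c d hq hc
    rw [lw_of_mem hc, lw_of_mem h1, h2, ContinuousLinearMap.comp_assoc]
    congr 1
    have e : toW c =ᶠ[𝓝 q] (toW d) ∘ (tr c d) := by
      filter_upwards [(hS c d).1.mem_nhds hq, (isOpen_domW c).mem_nhds hc] with p hp1 hp2
      exact (tr_spec c d hp1 hp2).2.symm
    rw [e.fderiv_eq]
    exact fderiv_comp q ((contDiffAt_toW d h1).differentiableAt (by simp))
      ((contDiffAt_tr hS hq).differentiableAt (by simp))
  · rcases c with j | c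
    · exact absurd hx hc
    · rcases d with k | d
      · exact absurd hq.1 hc
      · have h1 : tr (Sum.inr c) (Sum.inr d) q ∉ domW (Sum.inr d) := fun h =>
          hc ((tr_spec_inr c d hq).1.2 h)
        rw [lw_of_notMem hc, lw_of_notMem h1]
        simp

lemma tr_inX {c d : Idx} {q : V} (hq : q ∈ O c d) (hx : q ∈ inX c) : tr c d q ∈ inX d := by
  rcases d with k | d
  · have hc : q ∈ domW c := by
      rcases c with j | c
      · exact hx
      · exact hq.1
    exact (tr_spec c _ hq hc).1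
  · exact mem_univ _

lemma alpha_compat_aux (hS : TaskSmooth) {c d : Idx} {q : V} (hq : q ∈ O c d) (hx : q ∈ inX c) :
    alpha c q = (alpha d (tr c d q)).compContinuousLinearMap (fderiv ℝ (tr c d) q) := by
  have h1 : (fun p => one (lw c p)) =ᶠ[𝓝 q] fun p =>
      (one (lw d (tr c d p))).compContinuousLinearMap (fderiv ℝ (tr c d) p) := by
    filter_upwards [(hS c d).1.mem_nhds hq, (isOpen_inX c).mem_nhds hx] with p hp1 hp2
    rw [one_comp, lw_compat hS hp1 hp2]
  rw [← dl_alpha hx, h1.extDeriv_eq]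
  have hdd : DifferentiableAt ℝ (fun p => one (lw d p)) (tr c d q) :=
    (contDiffAt_one (contDiffAt_lw_inX (tr_inX hq hx))).differentiableAt (by simp)
  rw [extDeriv_pullback (f := tr c d) (r := ∞) hdd
    (contDiffAt_tr hS hq) minSm]
  rw [dl_alpha (tr_inX hq hx)]

lemma frequently_ne (j : Fin 4) (q : V) : ∃ᶠ v in 𝓝 q, v j ≠ 0 := by
  have h : Dense {v : V | v j ≠ 0} :=
    (dense_compl_singleton (0 : ℂ)).preimage (isOpenMap_eval j)
  exact mem_closure_iff_frequently.1 (h q)

lemma alpha_compat (hS : TaskSmooth) {c d : Idx} {q : V} (hq : q ∈ O c d) :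
    alpha c q = (alpha d (tr c d q)).compContinuousLinearMap (fderiv ℝ (tr c d) q) := by
  by_cases hx : q ∈ inX c
  · exact alpha_compat_aux hS hq hx
  · rcases c with j | c
    swap
    · exact absurd (mem_univ _) hx
    ext v
    have c1 : ContinuousAt (fun p => alpha (Sum.inl j) p v) q :=
      ((contDiff_alpha _).continuous.eval_const v).continuousAt
    have hc : ContDiffAt ℝ ∞ (tr (Sum.inl j) d) q := contDiffAt_tr hS hq
    have c2 : ContinuousAt (fun p => ((alpha d (tr (Sum.inl j) d p)).compContinuousLinearMap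
        (fderiv ℝ (tr (Sum.inl j) d) p)) v) q := by
      have e1 : ContinuousAt (fun p => alpha d (tr (Sum.inl j) d p)) q :=
        (contDiff_alpha d).continuous.continuousAt.comp hc.continuousAt
      have e2 : ContinuousAt (fderiv ℝ (tr (Sum.inl j) d)) q :=
        (hc.fderiv_right (m := ∞) (by simp)).continuousAt
      have e3 : ContinuousAt (fun p => fun i => fderiv ℝ (tr (Sum.inl j) d) p (v i)) q :=
        continuousAt_pi.2 fun i => e2.clm_apply continuousAt_const
      exact e1.eval e3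
    have hf : ∃ᶠ p in 𝓝 q, alpha (Sum.inl j) p v =
        ((alpha d (tr (Sum.inl j) d p)).compContinuousLinearMap
        (fderiv ℝ (tr (Sum.inl j) d) p)) v := by
      refine ((frequently_ne j q).and_eventually ((hS (Sum.inl j) d).1.mem_nhds hq)).mono ?_
      rintro p ⟨hp1, hp2⟩
      rw [alpha_compat_aux hS hp2 hp1]
    exact tendsto_nhds_unique_of_frequently_eq c1 c2 hf

lemma pow4_comp (hP : PowProps) (a : Alt 2) (L : V →L[ℝ] V) :
    pow4 (a.compContinuousLinearMap L) rb = L.det * pow4 a rb := hP.comp a a a a L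

/-- in the charts of the blow-up, off the divisor -/
lemma pow4_alpha_inl (hP : PowProps) {j : Fin 4} {v : V} (hv : v j ≠ 0) :
    ∃ D : ℝ, 0 < D ∧ pow4 (alpha (Sum.inl j) v) rb =
      D * (deriv chi (rr (bd j v)) * ff (rr (bd j v)) ^ 3) := by
  have hm : v ∈ domW (Sum.inl j) := hv
  have hb : bd j v ≠ 0 := toW_ne_zero (Sum.inl j) hm
  obtain ⟨D, hD, hD2⟩ := pow4_lam hP hb
  have e1 : alpha (Sum.inl j) v = (extDeriv (fun q => one (lam q)) (bd j v)).compContinuousLinearMap
      (fderiv ℝ (bd j) v) := by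
    rw [← dl_alpha (c := Sum.inl j) (q := v) hv]
    have h1 : (fun p => one (lw (Sum.inl j) p)) =ᶠ[𝓝 v] fun p =>
        (one (lam (bd j p))).compContinuousLinearMap (fderiv ℝ (bd j) p) := by
      filter_upwards [lw_eventually hm] with p hp
      rw [hp, one_comp]
      rfl
    rw [h1.extDeriv_eq]
    have hdd : DifferentiableAt ℝ (fun p => one (lam p)) (bd j v) :=
      (contDiffAt_one (contDiffAt_lam hb)).differentiableAt (by simp)
    exact extDeriv_pullback (f := bd j) (r := ∞) hdd
      (contDiff_bd j).contDiffAt minSm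
  have e2 : 0 < (fderiv ℝ (bd j) v).det := by
    rw [(hasFDerivAt_bd j v).fderiv]
    exact det_pos_of_injective _ (Dbd_injective hv)
  refine ⟨(fderiv ℝ (bd j) v).det * (384 * 16 / D), by positivity, ?_⟩
  rw [e1, pow4_comp hP]
  have : pow4 (extDeriv (fun q => one (lam q)) (bd j v)) rb =
      384 * ((2 * deriv chi (rr (bd j v))) * (2 * ff (rr (bd j v))) ^ 3) / D := by
    rw [← hD2]
    field_simp
  rw [this]
  field_simp
  ring

lemma ff_nonneg {s : ℝ} (h : 0 ≤ s) : 0 ≤ ff s := div_nonneg (chi_nonneg s) h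

lemma pow4_nonpos_inl' (hP : PowProps) {j : Fin 4} {v : V} (hv : v j ≠ 0) :
    pow4 (alpha (Sum.inl j) v) rb ≤ 0 := by
  obtain ⟨D, hD, h⟩ := pow4_alpha_inl hP hv
  rw [h]
  have h1 : deriv chi (rr (bd j v)) ≤ 0 := deriv_chi_nonpos _
  have h2 : 0 ≤ ff (rr (bd j v)) ^ 3 := pow_nonneg (ff_nonneg (rr_nonneg _)) 3
  exact mul_nonpos_of_nonneg_of_nonpos hD.le (mul_nonpos_of_nonpos_of_nonneg h1 h2)

lemma pow4_nonpos_inl (hP : PowProps) (j : Fin 4) (v : V) :
    pow4 (alpha (Sum.inl j) v) rb ≤ 0 := by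
  by_contra hcon
  push Not at hcon
  have hc : Continuous fun v => pow4 (alpha (Sum.inl j) v) rb :=
    hP.cont.comp (contDiff_alpha _).continuous
  have h1 : ∀ᶠ p in 𝓝 v, 0 < pow4 (alpha (Sum.inl j) p) rb :=
    hc.continuousAt.eventually (lt_mem_nhds hcon)
  obtain ⟨p, hp1, hp2⟩ := ((frequently_ne j v).and_eventually h1).exists
  exact absurd (pow4_nonpos_inl' hP hp1) (not_le.2 hp2)

lemma pow4_nonpos (hS : TaskSmooth) (hP : PowProps) (c : Idx) (q : V) :
    pow4 (alpha c q) rb ≤ 0 := by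
  rcases c with j | c
  · exact pow4_nonpos_inl hP j q
  · by_cases hq : q ∈ domW (Sum.inr c)
    · have hw : toW (Sum.inr c) q ≠ 0 := toW_ne_zero _ hq
      obtain ⟨k, hk⟩ := Function.ne_iff.1 hw
      have hO : q ∈ O (Sum.inr c) (Sum.inl k) := ⟨hq, hk⟩
      rw [alpha_compat hS hO, pow4_comp hP]
      exact mul_nonpos_of_nonneg_of_nonpos ((hS _ _).2.2.2.2 q hO).le (pow4_nonpos_inl hP k _)
    · have h1 : (fun p => one (lw (Sum.inr c) p)) =ᶠ[𝓝 q] fun _ => 0 := by
        filter_upwards [lw_far hq] with p hp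
        rw [hp, one_zero]
      have h2 : alpha (Sum.inr c) q = 0 := by
        rw [← dl_alpha (c := Sum.inr c) (q := q) (mem_univ _), h1.extDeriv_eq]
        simp only [extDeriv]
        have : fderiv ℝ (fun _ : V => (0 : Alt 1)) q = 0 := by simp
        rw [this]
        exact map_zero (ContinuousAlternatingMap.alternatizeUncurryFinCLM ℝ V ℝ (n := 1))
      rw [h2]
      simp [pow4, wedge4]

lemma pow4_neg (hP : PowProps) : ∃ c q, pow4 (alpha c q) rb < 0 := by
  obtain ⟨s, hs, h1, h2⟩ := exists_chi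
  set x : ℝ := Real.sqrt s with hx
  have hx0 : 0 < x := Real.sqrt_pos.2 hs
  set v : V := Pi.single 0 (x : ℂ) with hv
  have hv0 : v 0 ≠ 0 := by
    rw [hv, Pi.single_eq_same]
    exact_mod_cast hx0.ne'
  have hbd : bd 0 v = v := by
    funext i
    by_cases hi : i = 0
    · simp [bd, hi]
    · simp [bd, hi, hv]
  have hrr : rr (bd 0 v) = s := by
    rw [hbd, rr_eq_sum_normSq, Finset.sum_eq_single 0]
    · rw [hv, Pi.single_eq_same, Complex.normSq_ofReal, hx, Real.mul_self_sqrt hs.le]
    · intro i _ hi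
      rw [hv, Pi.single_eq_of_ne hi]
      simp
    · simp
  obtain ⟨D, hD, h⟩ := pow4_alpha_inl hP hv0
  refine ⟨Sum.inl 0, v, ?_⟩
  rw [h, hrr]
  have h3 : 0 < ff s := div_pos h1 hs
  exact mul_neg_of_pos_of_neg hD (mul_neg_of_neg_of_pos h2 (pow_pos h3 3))

theorem taskAlpha : TaskSmooth → PowProps → TaskAlpha := by
  intro hS hP
  refine ⟨alpha, fun c q => one (lw c q), fun q => one (nn 0 q), ?_⟩
  refine ⟨⟨contDiff_alpha, fun c d q hq => alpha_compat hS hq⟩, closed_alpha,
    pow4_nonpos hS hP, pow4_neg hP, ?_, ?_, ?_, contDiff_one (contDiff_nn 0), ?_, ?_⟩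
  · intro c q hq
    exact (contDiffAt_one (contDiffAt_lw_inX hq)).contDiffWithinAt
  · intro c q hq
    exact dl_alpha hq
  · intro c d q hq hx
    show one (lw c q) = _
    rw [lw_compat hS hq hx, one_comp]
  · intro q
    rfl
  · intro q hq
    show one (lw (Sum.inl 0) q) - one (nn 0 q) = one (darg q)
    rw [lw_inl hq, one_add, dargj_zero]
    abel

end Pool.Agent.TH179.SDAlpha

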