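import Pool.Agent.TH179.SD.Mfd

/-!
# Project SD: assembly
-/

open scoped ContDiff Topology Manifold
open Set

noncomputable section

namespace Pool.Agent.TH179.SD

theorem O_self (c : Idx) : O c c = univ := by
  rcases c with j | c <;> simp [O]

/-- the sign of the fourth power is constant -/
theorem sign_const (hP : PowProps) (hS : TaskSmooth) {w : Idx → V → Alt 2} (hw : IsF 2 w)
    (hn : ∀ c q, pow4 (w c q) rb ≠ 0) :
    (∀ c q, 0 < pow4 (w c q) rb) ∨ (∀ c q, pow4 (w c q) rb < 0) := by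
  have hc : ∀ c, Continuous fun q => pow4 (w c q) rb :=
    fun c => hP.cont.comp (hw.smooth c).continuous
  have hloc : ∀ c, (∀ q, 0 < pow4 (w c q) rb) ∨ (∀ q, pow4 (w c q) rb < 0) := by
    intro c
    by_contra hcon
    push Not at hcon
    obtain ⟨⟨q1, h1⟩, ⟨q2, h2⟩⟩ := hcon
    have h1' := lt_of_le_of_ne h1 (hn c q1)
    have h2' := lt_of_le_of_ne h2 (Ne.symm (hn c q2))
    have := mem_range_of_exists_le_of_exists_ge (hc c) ⟨q1, h1'.le⟩ ⟨q2, h2'.le⟩
    obtain ⟨q, hq⟩ := this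
    exact hn c q hq
  have htr : ∀ c d, (∀ q, 0 < pow4 (w c q) rb) → ∀ q, 0 < pow4 (w d q) rb := by
    intro c d h
    obtain ⟨q, hq⟩ := (hS c d).2.1
    have e : pow4 (w c q) rb = (fderiv ℝ (tr c d) q).det * pow4 (w d (tr c d q)) rb := by
      rw [hw.compat c d q hq]
      exact hP.comp _ _ _ _ _
    have hdet := (hS c d).2.2.2.2 q hq
    rcases hloc d with h' | h'
    · exact h'
    · exfalso
      have h1 := h q
      have h2 := h' (tr c d q)
      rw [e] at h1
      nlinarith [mul_pos_of_neg_of_neg h2 (neg_lt_zero.2 hdet)]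
  rcases hloc (Sum.inl 0) with h | h
  · exact Or.inl fun c => htr _ c h
  · right
    intro c
    rcases hloc c with h' | h'
    · exfalso
      have h1 := htr c (Sum.inl 0) h' 0
      have h2 := h 0
      linarith
    · exact h'

/-- the difference of two fourth powers of cohomologous forms is exact -/
theorem pow4_diff (hP : PowProps) (hS : TaskSmooth) (hW : TaskWedge) {w a : Idx → V → Alt 2}
    {m : Idx → V → Alt 1} (hw : IsF 2 w) (ha : IsF 2 a) (hm : IsF 1 m)
    (hwc : ∀ c q, extDeriv (w c) q = 0) (hac : ∀ c q, extDeriv (a c) q = 0)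
    (h : ∀ c q, w c q = a c q + extDeriv (m c) q) :
    ∃ b : Idx → V → Alt 7, IsF 7 b ∧ ∀ c q (v : Fin 8 → V),
      (extDeriv (b c) q : V [⋀^Fin (7 + 1)]→L[ℝ] ℝ) v = pow4 (w c q) v - pow4 (a c q) v := by
  obtain ⟨W, hWs, hWn, hWd⟩ := hW
  have hsm : ∀ (x y z : Idx → V → Alt 2), IsF 2 x → IsF 2 y → IsF 2 z → ∀ c,
      ContDiff ℝ ∞ fun q => W (m c q) (x c q) (y c q) (z c q) := by
    intro x y z hx hy hz c
    exact hWs.comp ((hm.smooth c).prodMk ((hx.smooth c).prodMk ((hy.smooth c).prodMk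
      (hz.smooth c))))
  have hcp : ∀ (x y z : Idx → V → Alt 2), IsF 2 x → IsF 2 y → IsF 2 z → ∀ c d, ∀ q ∈ O c d,
      W (m c q) (x c q) (y c q) (z c q) =
      (W (m d (tr c d q)) (x d (tr c d q)) (y d (tr c d q))
        (z d (tr c d q))).compContinuousLinearMap (fderiv ℝ (tr c d) q) := by
    intro x y z hx hy hz c d q hq
    rw [← hWn, ← hm.compat c d q hq, ← hx.compat c d q hq, ← hy.compat c d q hq,
      ← hz.compat c d q hq]
  refine ⟨fun c q => W (m c q) (w c q) (w c q) (w c q) + W (m c q) (a c q) (w c q) (w c q)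
    + W (m c q) (a c q) (a c q) (w c q) + W (m c q) (a c q) (a c q) (a c q), ⟨fun c => ?_,
    fun c d q hq => ?_⟩, fun c q v => ?_⟩
  · exact (((hsm w w w hw hw hw c).add (hsm a w w ha hw hw c)).add (hsm a a w ha ha hw c)).add
      (hsm a a a ha ha ha c)
  · rw [hcp w w w hw hw hw c d q hq, hcp a w w ha hw hw c d q hq, hcp a a w ha ha hw c d q hq,
      hcp a a a ha ha ha c d q hq]
    rfl
  · have d1 := (hsm w w w hw hw hw c).differentiable (by simp) q
    have d2 := (hsm a w w ha hw hw c).differentiable (by simp) q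
    have d3 := (hsm a a w ha ha hw c).differentiable (by simp) q
    have d4 := (hsm a a a ha ha ha c).differentiable (by simp) q
    have e0 : extDeriv ((((fun q => W (m c q) (w c q) (w c q) (w c q)) +
        fun q => W (m c q) (a c q) (w c q) (w c q)) +
        fun q => W (m c q) (a c q) (a c q) (w c q)) +
        fun q => W (m c q) (a c q) (a c q) (a c q)) q = _ :=
      (extDeriv_add ((d1.add d2).add d3) d4)
    rw [extDeriv_add (d1.add d2) d3, extDeriv_add d1 d2] at e0
    change (extDeriv ((((fun q => W (m c q) (w c q) (w c q) (w c q)) +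
        fun q => W (m c q) (a c q) (w c q) (w c q)) +
        fun q => W (m c q) (a c q) (a c q) (w c q)) +
        fun q => W (m c q) (a c q) (a c q) (a c q)) q : V [⋀^Fin (7 + 1)]→L[ℝ] ℝ) v = _
    rw [e0]
    have e1 := hWd (m c) (w c) (w c) (w c) (hm.smooth c) (hw.smooth c) (hw.smooth c)
      (hw.smooth c) (hwc c) (hwc c) (hwc c) q v
    have e2 := hWd (m c) (a c) (w c) (w c) (hm.smooth c) (ha.smooth c) (hw.smooth c)
      (hw.smooth c) (hac c) (hwc c) (hwc c) q v
    have e3 := hWd (m c) (a c) (a c) (w c) (hm.smooth c) (ha.smooth c) (ha.smooth c)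
      (hw.smooth c) (hac c) (hac c) (hwc c) q v
    have e4 := hWd (m c) (a c) (a c) (a c) (hm.smooth c) (ha.smooth c) (ha.smooth c)
      (ha.smooth c) (hac c) (hac c) (hac c) q v
    simp only [ContinuousAlternatingMap.add_apply]
    rw [e1, e2, e3, e4]
    have hq := h c q
    set x := w c q with hx
    set y := a c q with hy
    set z : Alt 2 := extDeriv (m c) q with hz
    have f1 : wedge4 x x x x v = wedge4 y x x x v + wedge4 z x x x v := by
      conv_lhs => rw [show wedge4 x x x x v = wedge4 (y + z) x x x v by rw [← hq]]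
      exact hP.add _ _ _ _ _ _
    have f2 : wedge4 y x x x v = wedge4 y y x x v + wedge4 z y x x v := by
      rw [hP.symm12 y x x x v]
      conv_lhs => rw [show wedge4 x y x x v = wedge4 (y + z) y x x v by rw [← hq]]
      exact hP.add _ _ _ _ _ _
    have f3 : wedge4 y y x x v = wedge4 y y y x v + wedge4 z y y x v := by
      rw [hP.symm23 y y x x v, hP.symm12 y x y x v]
      conv_lhs => rw [show wedge4 x y y x v = wedge4 (y + z) y y x v by rw [← hq]]
      exact hP.add _ _ _ _ _ _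
    have f4 : wedge4 y y y x v = wedge4 y y y y v + wedge4 z y y y v := by
      rw [hP.symm34 y y y x v, hP.symm23 y y x y v, hP.symm12 y x y y v]
      conv_lhs => rw [show wedge4 x y y y v = wedge4 (y + z) y y y v by rw [← hq]]
      exact hP.add _ _ _ _ _ _
    simp only [pow4]
    rw [f1, f2, f3, f4]
    ring

theorem pow4_smul (hP : PowProps) (t : ℝ) (a : Alt 2) (v : Fin 8 → V) :
    pow4 (t • a) v = t ^ 4 * pow4 a v := by
  unfold pow4
  rw [hP.smul, hP.symm12, hP.smul, hP.symm23, hP.symm12, hP.smul, hP.symm34, hP.symm23,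
    hP.symm12, hP.smul]
  ring

theorem IsF.smul {k : ℕ} {w : Idx → V → Alt k} (hw : IsF k w) (t : ℝ) :
    IsF k fun c q => t • w c q := by
  refine ⟨fun c => (hw.smooth c).const_smul t, fun c d q hq => ?_⟩
  simp only [hw.compat c d q hq]
  rfl

theorem IsF.neg {k : ℕ} {w : Idx → V → Alt k} (hw : IsF k w) :
    IsF k fun c q => -w c q := by
  refine ⟨fun c => (hw.smooth c).neg, fun c d q hq => ?_⟩
  simp only [hw.compat c d q hq]
  rfl

theorem extDeriv_neg' {k : ℕ} {w : V → Alt k} (q : V) :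
    extDeriv (fun y => -w y) q = -extDeriv w q := by
  have := extDeriv_smul (𝕜 := ℝ) (x := q) (-1 : ℝ) w
  simp only [neg_smul, one_smul] at this
  exact this

/-- **No positive symplectic form.** -/
theorem not_pos {M : Type} [TopologicalSpace M] [CompactSpace M] [T2Space M] (D : Model M)
    (hP : PowProps) (hS : TaskSmooth) (hW : TaskWedge) (hA : TaskAlpha) (hH : TaskH2)
    (hSt : TaskStokes) {w : Idx → V → Alt 2} (hw : IsF 2 w)
    (hwc : ∀ c q, extDeriv (w c) q = 0) : ¬ ∀ c q, 0 < pow4 (w c q) rb := by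
  intro hpos
  obtain ⟨α, l, n, hα⟩ := hA
  obtain ⟨t, m, hm, h⟩ := hH M D α l n hα w hw hwc
  have hac : ∀ c q, extDeriv ((fun c q => t • α c q) c) q = (0 : Alt 3) := by
    intro c q
    have := extDeriv_smul (𝕜 := ℝ) (x := q) t (α c)
    change extDeriv (t • α c) q = 0
    rw [this, hα.closed c q, smul_zero]
  obtain ⟨b, hb, hbd⟩ := pow4_diff hP hS hW hw (hα.form.smul t) hm hwc hac h
  have h1 : ∀ c q, 0 < (extDeriv (b c) q : V [⋀^Fin (7 + 1)]→L[ℝ] ℝ) rb := by
    intro c q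
    rw [hbd c q rb, pow4_smul hP]
    have h2 := hα.nonpos c q
    have h3 := hpos c q
    have h4 : 0 ≤ t ^ 4 := by positivity
    nlinarith
  have h2 := hSt M D b hb (fun c q => (h1 c q).le) (Sum.inl 0) 0
  exact absurd h2 (h1 _ _).ne'

/-- `α⁴` is not exact. -/
theorem not_exact {M : Type} [TopologicalSpace M] [CompactSpace M] [T2Space M] (D : Model M)
    (hSt : TaskStokes) {α : Idx → V → Alt 2} {l : Idx → V → Alt 1} {n : V → Alt 1}
    (hα : IsAlpha α l n) {b : Idx → V → Alt 7} (hb : IsF 7 b)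
    (h : ∀ c q (v : Fin 8 → V), pow4 (α c q) v = (extDeriv (b c) q : V [⋀^Fin (7 + 1)]→L[ℝ] ℝ) v) :
    False := by
  have h1 := hSt M D (fun c q => -b c q) hb.neg (fun c q => by
    rw [extDeriv_neg']
    have := hα.nonpos c q
    rw [h c q rb] at this
    simpa using this)
  obtain ⟨c, q, hq⟩ := hα.neg
  have h2 := h1 c q
  rw [extDeriv_neg'] at h2
  have h3 : (extDeriv (b c) q : V [⋀^Fin (7 + 1)]→L[ℝ] ℝ) rb = 0 := by simpa using h2
  rw [h c q rb, h3] at hq
  exact lt_irrefl _ hq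

/-- **No negative nondegenerate form.** -/
theorem not_neg (hP : PowProps) (hS : TaskSmooth) (hPol : TaskPolar) (hPi : TaskPi)
    (hN : TaskNull) (hG : TaskGlue) (hF : TaskFrame) (hO : ¬ ∃ Ω, OmegaBad Ω)
    {w : Idx → V → Alt 2} (hw : IsF 2 w) : ¬ ∀ c q, pow4 (w c q) rb < 0 := by
  intro h
  obtain ⟨T, TA, hT⟩ := hF
  obtain ⟨h3, h5⟩ := hPi (hPol 8) hP
  exact hO (hG hP hS (fun G hG1 hG2 => hN NegForm h3 h5 G hG1 hG2) T TA hT w hw h)

theorem no_omega (hPol : TaskPolar) (h1 : TaskMom) (h2 : TaskAsym) (h3 : TaskIndex)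
    (h4 : TaskDual) (h5 : TaskNoJ) (h6 : TaskJOmega) : ¬ ∃ Ω, OmegaBad Ω := by
  obtain ⟨μ, hμ⟩ := h1
  obtain ⟨F, f, hF⟩ := h3 μ hμ (h2 μ hμ)
  exact h6 (hPol 10) (h5 ⟨f, h4 F f hF⟩)

/-- **Main theorem, modulo tasks.** -/
theorem main_of (hM : TaskModel) (hP : PowProps) (hS : TaskSmooth) (hSC : TaskSC)
    (hW : TaskWedge) (hA : TaskAlpha) (hH : TaskH2) (hSt : TaskStokes) (hPol : TaskPolar)
    (hPi : TaskPi) (hN : TaskNull) (hG : TaskGlue) (hF : TaskFrame) (hJ : TaskJ)
    (hO : ¬ ∃ Ω, OmegaBad Ω) :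
    ∃ (M : Type) (_ : TopologicalSpace M) (_ : ChartedSpace V M),
      IsManifold 𝓘(ℝ, V) ∞ M ∧ CompactSpace M ∧ T2Space M ∧ SimplyConnectedSpace M ∧
      Nonempty (ACS M) ∧ (∃ α : DForm M 2, α.Closed ∧ ¬ α.Pow4Exact) ∧
      ¬ ∃ w : DForm M 2, w.Closed ∧ w.Nondegenerate := by
  obtain ⟨M, tM, cM, t2M, ⟨D⟩⟩ := hM
  letI := D.charted
  refine ⟨M, tM, D.charted, D.manifold hS, cM, t2M, hSC M ⟨D⟩, ?_, ?_, ?_⟩
  · obtain ⟨J, hJ'⟩ := hJ hF
    exact ⟨D.acs hS J hJ'⟩
  · obtain ⟨α, l, n, hα⟩ := hA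
    refine ⟨D.form hS α hα.form, fun c y _ => hα.closed _ _, ?_⟩
    rintro ⟨b, hb⟩
    refine not_exact D hSt hα (D.fam_isF hS b) fun c q v => ?_
    have e := hb ⟨D.φ c, ⟨c, rfl⟩⟩ q (by rw [D.target]; trivial) v
    have hid := D.idx_spec ⟨D.φ c, ⟨c, rfl⟩⟩
    -- the index of the chart may differ from `c`, but the forms agree
    have hc : (D.form hS α hα.form).loc ⟨D.φ c, ⟨c, rfl⟩⟩ q = α c q := by
      set d := D.idx ⟨D.φ c, ⟨c, rfl⟩⟩ with hd
      have hq : q ∈ O c d := by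
        have h1 := (D.overlap c d q).1
        apply h1
        rw [hid]
        exact (D.φ c).map_target (by rw [D.target]; trivial)
      have h2 := hα.form.compat c d q hq
      have h3 : tr c d =ᶠ[𝓝 q] id := by
        filter_upwards [(hS c d).1.mem_nhds hq] with x hx
        rw [← D.trans c d x hx, hid]
        exact (D.φ c).right_inv (by rw [D.target]; trivial)
      rw [h3.fderiv_eq, h3.eq_of_nhds] at h2
      rw [h2]
      show α d q = _
      ext v
      simp
    rw [hc] at e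
    exact e
  · rintro ⟨w, hwc, hwn⟩
    have hw := D.fam_isF hS w
    have hwc' : ∀ c q, extDeriv (D.fam w c) q = 0 := fun c q =>
      hwc ⟨D.φ c, ⟨c, rfl⟩⟩ q (by rw [D.target]; trivial)
    have hn : ∀ c q, pow4 (D.fam w c q) rb ≠ 0 := fun c q =>
      (hP.nondeg _).2 fun u hu => hwn ⟨D.φ c, ⟨c, rfl⟩⟩ q (by rw [D.target]; trivial) u hu
    rcases sign_const hP hS hw hn with h | h
    · exact not_pos D hP hS hW hA hH hSt hw hwc' h
    · exact not_neg hP hS hPol hPi hN hG hF hO hw h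

end Pool.Agent.TH179.SD
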