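import Pool.Agent.TH179.SD.Asm
import Pool.Agent.TH720.SD.Polar
import Pool.Agent.TH713.SDG3
import Pool.Agent.TH959.SD.Cut
import Pool.Agent.TH55.SD.P1
import Pool.Agent.TH940.SD.Stokes
import Pool.Agent.TH159.SD.JOmega
import Pool.Agent.TH365.J1649
import Pool.Agent.TH989.SDWedge
import Pool.Agent.TH964.SD.G5c
import Pool.Agent.TH921.J1630
import Pool.Agent.TH11.SD.Model
import Pool.Agent.TH348.SD.Frame
import Pool.Agent.TH124.SD.H2b
import Pool.Agent.TH656.SDNull
import Pool.Agent.TH902.SD.Sigma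
import Pool.Agent.TH225.SD.K2b
import Pool.Agent.TH713.SDL2
import Pool.Agent.TH886.SD.P2
import Pool.Agent.TH790.SDG.Glue3
import Pool.Agent.TH179.SD.AlphaF

/-!
# Project SD: assembly, second part
-/

open scoped ContDiff Topology Manifold
open Set

noncomputable section

namespace Pool.Agent.TH179.SD

theorem pow' : PowProps := Pool.Agent.TH713.SDL2.taskPow

theorem smooth' : TaskSmooth := Pool.Agent.TH365.J1649.taskSmooth

theorem h2' : TaskH2 :=
  Pool.Agent.TH124.SD.taskH2 smooth' Pool.Agent.TH55.SD.taskP1 Pool.Agent.TH55.SD.taskP1c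
    Pool.Agent.TH886.SD.taskP2 Pool.Agent.TH959.SD.taskCut

theorem frame' : TaskFrame := Pool.Agent.TH348.SD.taskFrame smooth'

theorem omega' (h3 : TaskIndex) (h4 : TaskDual) (h5 : TaskNoJ) : ¬ ∃ Ω, OmegaBad Ω :=
  no_omega Pool.Agent.TH720.SD.taskPolar Pool.Agent.TH921.J1630.taskMom
    Pool.Agent.TH225.SDK2.taskAsym h3 h4 h5 (Pool.Agent.TH159.SD.taskJOmega pow')

/-- the main theorem, with the two open pieces as hypotheses -/
theorem main2 (hPi : TaskPi) (hO : ¬ ∃ Ω, OmegaBad Ω) :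
    ∃ (M : Type) (_ : TopologicalSpace M) (_ : ChartedSpace V M),
      IsManifold 𝓘(ℝ, V) ∞ M ∧ CompactSpace M ∧ T2Space M ∧ SimplyConnectedSpace M ∧
      Nonempty (ACS M) ∧ (∃ α : DForm M 2, α.Closed ∧ ¬ α.Pow4Exact) ∧
      ¬ ∃ w : DForm M 2, w.Closed ∧ w.Nondegenerate :=
  main_of X11.taskModel pow' smooth' Pool.Agent.TH713.SDG3.taskSC
    Pool.Agent.TH989.SD.taskWedge (Pool.Agent.TH179.SDAlpha.taskAlpha smooth' pow') h2'
    (Pool.Agent.TH940.SD.taskStokes smooth') Pool.Agent.TH720.SD.taskPolar hPi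
    Pool.Agent.TH656.SD.taskNull Pool.Agent.TH790.SDG.taskGlue frame'
    (Pool.Agent.TH964.SD.taskJ smooth') hO

end Pool.Agent.TH179.SD
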