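import Pool.Agent.TH179.SD.Asm2

/-!
# Project SD: assembly, third part (the almost symplectic form)
-/

open scoped ContDiff Topology Manifold
open Set

noncomputable section

namespace Pool.Agent.TH179.SD

/-- the manifold also has an almost symplectic form -/
theorem main3 (hPi : TaskPi) (hO : ¬ ∃ Ω, OmegaBad Ω) :
    ∃ (M : Type) (_ : TopologicalSpace M) (_ : ChartedSpace V M),
      IsManifold 𝓘(ℝ, V) ∞ M ∧ CompactSpace M ∧ T2Space M ∧ SimplyConnectedSpace M ∧
      (∃ α : DForm M 2, α.Closed ∧ ¬ α.Pow4Exact) ∧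
      (∃ s : DForm M 2, s.Nondegenerate) ∧
      ¬ ∃ w : DForm M 2, w.Closed ∧ w.Nondegenerate := by
  obtain ⟨M, tM, cM, t2M, ⟨D⟩⟩ := X11.taskModel
  have hP := pow'
  have hS := smooth'
  letI := D.charted
  refine ⟨M, tM, D.charted, D.manifold hS, cM, t2M, Pool.Agent.TH713.SDG3.taskSC M ⟨D⟩,
    ?_, ?_, ?_⟩
  · obtain ⟨α, l, n, hα⟩ := Pool.Agent.TH179.SDAlpha.taskAlpha smooth' pow'
    refine ⟨D.form hS α hα.form, fun c y _ => hα.closed _ _, ?_⟩
    rintro ⟨b, hb⟩
    refine not_exact D (Pool.Agent.TH940.SD.taskStokes smooth') hα (D.fam_isF hS b)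
      fun c q v => ?_
    have e := hb ⟨D.φ c, ⟨c, rfl⟩⟩ q (by rw [D.target]; trivial) v
    have hid := D.idx_spec ⟨D.φ c, ⟨c, rfl⟩⟩
    have hc : (D.form hS α hα.form).loc ⟨D.φ c, ⟨c, rfl⟩⟩ q = α c q := by
      set d := D.idx ⟨D.φ c, ⟨c, rfl⟩⟩ with hd
      have hq : q ∈ O c d := by
        have h1 := (D.overlap c d q).1
        apply h1
        rw [hid]
        exact (D.φ c).map_target (by rw [D.target]; trivial)
      have h2 := hα.form.compat c d q hq
      have h3 : tr c d =ᶠ[𝓝 q] id := by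
        filter_upwards [(hS c d).1.mem_nhds hq] with x hx
        rw [← D.trans c d x hx, hid]
        exact (D.φ c).right_inv (by rw [D.target]; trivial)
      rw [h3.fderiv_eq, h3.eq_of_nhds] at h2
      rw [h2]
      show α d q = _
      ext v
      simp
    rw [hc] at e
    exact e
  · obtain ⟨J, hJ⟩ := Pool.Agent.TH964.SD.taskJ smooth' frame'
    obtain ⟨s, hs, hn, -⟩ := Pool.Agent.TH902.SD.taskSigma M D hP hS J hJ
    exact ⟨D.form hS s hs, fun c y _ u hu => (hP.nondeg _).1 (hn _ _) u hu⟩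
  · rintro ⟨w, hwc, hwn⟩
    have hw := D.fam_isF hS w
    have hwc' : ∀ c q, extDeriv (D.fam w c) q = 0 := fun c q =>
      hwc ⟨D.φ c, ⟨c, rfl⟩⟩ q (by rw [D.target]; trivial)
    have hn : ∀ c q, pow4 (D.fam w c q) rb ≠ 0 := fun c q =>
      (hP.nondeg _).2 fun u hu => hwn ⟨D.φ c, ⟨c, rfl⟩⟩ q (by rw [D.target]; trivial) u hu
    rcases sign_const hP hS hw hn with h | h
    · exact not_pos D hP hS Pool.Agent.TH989.SD.taskWedge
        (Pool.Agent.TH179.SDAlpha.taskAlpha smooth' pow') h2'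
        (Pool.Agent.TH940.SD.taskStokes smooth') hw hwc' h
    · exact not_neg hP hS Pool.Agent.TH720.SD.taskPolar hPi
        Pool.Agent.TH656.SD.taskNull Pool.Agent.TH790.SDG.taskGlue frame' hO hw h

end Pool.Agent.TH179.SD
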