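import Pool.Agent.TH179.SD.Asm3
import Pool.Agent.TH306.IX.Flat
import Pool.Agent.TH828.SD.Dual
import Pool.Agent.TH615.SD.NoJ
import Pool.Agent.TH874.SD.Pi

/-!
# Project SD: end of the assembly
-/

open scoped ContDiff Topology Manifold
open Set

noncomputable section

namespace Pool.Agent.TH179.SD

/-- there is no equivariant field of negative forms over the sphere -/
theorem no_bad : ¬ ∃ Ω, OmegaBad Ω :=
  omega' Pool.Agent.TH306.IX.taskIndex Pool.Agent.TH828.SD.taskDual Pool.Agent.TH615.SD.taskNoJ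

/-- the almost complex manifold -/
theorem final2 :
    ∃ (M : Type) (_ : TopologicalSpace M) (_ : ChartedSpace V M),
      IsManifold 𝓘(ℝ, V) ∞ M ∧ CompactSpace M ∧ T2Space M ∧ SimplyConnectedSpace M ∧
      Nonempty (ACS M) ∧ (∃ α : DForm M 2, α.Closed ∧ ¬ α.Pow4Exact) ∧
      ¬ ∃ w : DForm M 2, w.Closed ∧ w.Nondegenerate :=
  main2 Pool.Agent.TH874.SD.taskPi no_bad

/-- the almost symplectic manifold -/
theorem final3 :
    ∃ (M : Type) (_ : TopologicalSpace M) (_ : ChartedSpace V M),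
      IsManifold 𝓘(ℝ, V) ∞ M ∧ CompactSpace M ∧ T2Space M ∧ SimplyConnectedSpace M ∧
      (∃ α : DForm M 2, α.Closed ∧ ¬ α.Pow4Exact) ∧
      (∃ s : DForm M 2, s.Nondegenerate) ∧
      ¬ ∃ w : DForm M 2, w.Closed ∧ w.Nondegenerate :=
  main3 Pool.Agent.TH874.SD.taskPi no_bad

end Pool.Agent.TH179.SD
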