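import Pool.Agent.TH179.SD.Gen
import Pool.Agent.TH179.SD.Fin

/-!
# Project SD: the results in terms of the general definitions
-/

open scoped ContDiff Manifold

noncomputable section

namespace Pool.Agent.TH179.SDGen

open Pool.Agent.TH179.SD

variable {M : Type} [TopologicalSpace M] [ChartedSpace V M]

/-- conversion of forms -/
def toD {k : ℕ} (w : DiffForm V M k) : DForm M k where
  loc := w.loc
  smooth := w.smooth
  compat := w.compat

/-- conversion of forms -/
def ofD {k : ℕ} (w : DForm M k) : DiffForm V M k where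
  loc := w.loc
  smooth := w.smooth
  compat := w.compat

/-- conversion of almost complex structures -/
def ofACS (J : ACS M) : AlmostComplex V M where
  loc := J.loc
  smooth := J.smooth
  sq := J.sq
  compat := J.compat

theorem closedManifold (h1 : IsManifold 𝓘(ℝ, V) ∞ M) (h2 : CompactSpace M) (h3 : T2Space M) :
    IsClosedManifold V M 8 := by
  refine ⟨?_, h1, h2, h3, ChartedSpace.secondCountable_of_sigmaCompact V M⟩
  have : Module.finrank ℝ (Fin 4 → ℂ) = 8 := by
    rw [Module.finrank_pi_fintype]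
    simp [Complex.finrank_real_complex]
  exact this

theorem exact_iff (α : DForm M 2) (h : (ofD α).FourthPowerExact) : α.Pow4Exact := by
  obtain ⟨b, hb⟩ := h
  exact ⟨toD b, fun c y hy v => hb c y hy v⟩

theorem res2 :
    ∃ (E : Type) (_ : NormedAddCommGroup E) (_ : NormedSpace ℝ E)
      (M : Type) (_ : TopologicalSpace M) (_ : ChartedSpace E M),
      IsClosedManifold E M 8 ∧ SimplyConnectedSpace M ∧ Nonempty (AlmostComplex E M) ∧
      (∃ α : DiffForm E M 2, α.Closed ∧ ¬ α.FourthPowerExact) ∧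
      ¬ ∃ w : DiffForm E M 2, w.Closed ∧ w.Nondegenerate := by
  obtain ⟨M, t, c, h1, h2, h3, h4, ⟨J⟩, ⟨α, h6, h7⟩, h8⟩ := final2
  refine ⟨V, inferInstance, inferInstance, M, t, c, closedManifold h1 h2 h3, h4, ⟨ofACS J⟩,
    ⟨ofD α, h6, fun h => h7 (exact_iff α h)⟩, ?_⟩
  rintro ⟨w, hw, hn⟩
  exact h8 ⟨toD w, hw, hn⟩

theorem res3 :
    ∃ (E : Type) (_ : NormedAddCommGroup E) (_ : NormedSpace ℝ E)
      (M : Type) (_ : TopologicalSpace M) (_ : ChartedSpace E M),
      IsClosedManifold E M 8 ∧ SimplyConnectedSpace M ∧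
      (∃ α : DiffForm E M 2, α.Closed ∧ ¬ α.FourthPowerExact) ∧
      (∃ s : DiffForm E M 2, s.Nondegenerate ∧
        ¬ ∃ w : DiffForm E M 2, w.Closed ∧ w.Nondegenerate ∧ Homotopic s w) ∧
      ¬ ∃ w : DiffForm E M 2, w.Closed ∧ w.Nondegenerate := by
  obtain ⟨M, t, c, h1, h2, h3, h4, ⟨α, h6, h7⟩, ⟨s, hs⟩, h8⟩ := final3
  have h9 : ¬ ∃ w : DiffForm V M 2, w.Closed ∧ w.Nondegenerate := by
    rintro ⟨w, hw, hn⟩
    exact h8 ⟨toD w, hw, hn⟩
  refine ⟨V, inferInstance, inferInstance, M, t, c, closedManifold h1 h2 h3, h4,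
    ⟨ofD α, h6, fun h => h7 (exact_iff α h)⟩, ⟨ofD s, hs, ?_⟩, h9⟩
  rintro ⟨w, hw, hn, -⟩
  exact h9 ⟨w, hw, hn⟩

end Pool.Agent.TH179.SDGen
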