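import Mathlib

/-!
# Differential forms and almost complex structures on manifolds

`E` is a real normed space, the model space of the manifold `M`.
-/

open scoped ContDiff Manifold

noncomputable section

namespace Pool.Agent.TH179.SDGen

section

variable (E : Type) [NormedAddCommGroup E] [NormedSpace ℝ E]
variable (M : Type) [TopologicalSpace M] [ChartedSpace E M]

/-- `M` is a closed smooth manifold of dimension `n`: compact, Hausdorff, second countable, without
boundary (it is modelled on the vector space `E` of dimension `n`). -/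
def IsClosedManifold (n : ℕ) : Prop :=
  Module.finrank ℝ E = n ∧ IsManifold 𝓘(ℝ, E) ∞ M ∧ CompactSpace M ∧ T2Space M ∧
    SecondCountableTopology M

variable {E M}

/-- the change of coordinates from the chart `c` to the chart `d` -/
def chg (c d : atlas E M) : OpenPartialHomeomorph E E := c.1.symm.trans d.1

variable (E M)

/-- A smooth differential `k`-form on `M`: for each chart of the atlas its expression in the
coordinates, smooth on the image of the chart, compatible with all changes of coordinates. -/
structure DiffForm (k : ℕ) where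
  /-- the expression of the form in a chart -/
  loc : atlas E M → E → E [⋀^Fin k]→L[ℝ] ℝ
  smooth : ∀ c, ContDiffOn ℝ ∞ (loc c) c.1.target
  compat : ∀ c d, ∀ y ∈ (chg c d).source,
    loc c y = (loc d (chg c d y)).compContinuousLinearMap (fderiv ℝ (chg c d) y)

/-- An almost complex structure on `M`: a smooth field `J` of endomorphisms of the tangent spaces
with `J² = -1`, given by its expressions in the charts. -/
structure AlmostComplex where
  /-- the expression of the field in a chart -/
  loc : atlas E M → E → E →L[ℝ] E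
  smooth : ∀ c, ContDiffOn ℝ ∞ (loc c) c.1.target
  sq : ∀ c, ∀ y ∈ c.1.target, ∀ u, loc c y (loc c y u) = -u
  compat : ∀ c d, ∀ y ∈ (chg c d).source, ∀ u,
    fderiv ℝ (chg c d) y (loc c y u) = loc d (chg c d y) (fderiv ℝ (chg c d) y u)

variable {E M}

/-- The form is closed. -/
def DiffForm.Closed {k : ℕ} (w : DiffForm E M k) : Prop :=
  ∀ c, ∀ y ∈ c.1.target, extDeriv (w.loc c) y = 0

/-- The two-form is nondegenerate at every point. -/
def DiffForm.Nondegenerate (w : DiffForm E M 2) : Prop :=
  ∀ c, ∀ y ∈ c.1.target, ∀ u, (∀ v, w.loc c y ![u, v] = 0) → u = 0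

/-- `∑_σ sgn σ · a(v_σ0, v_σ1) a(v_σ2, v_σ3) a(v_σ4, v_σ5) a(v_σ6, v_σ7)`, that is sixteen times
the value of `a ∧ a ∧ a ∧ a` on `v`. -/
def fourthPower (a : E [⋀^Fin 2]→L[ℝ] ℝ) (v : Fin 8 → E) : ℝ :=
  ∑ σ : Equiv.Perm (Fin 8), (((Equiv.Perm.sign σ : ℤˣ) : ℤ) : ℝ) *
    (a ![v (σ 0), v (σ 1)] * a ![v (σ 2), v (σ 3)] * a ![v (σ 4), v (σ 5)] * a ![v (σ 6), v (σ 7)])

/-- The fourth exterior power of the two-form (times sixteen) is exact: it is the exterior
derivative of a smooth seven-form. -/
def DiffForm.FourthPowerExact (w : DiffForm E M 2) : Prop :=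
  ∃ b : DiffForm E M 7, ∀ c, ∀ y ∈ c.1.target, ∀ v : Fin 8 → E,
    fourthPower (w.loc c y) v = extDeriv (b.loc c) y v

/-- Two nondegenerate forms are homotopic: they are joined by a path `t ↦ h t` of nondegenerate
forms, jointly continuous in `t` and the point in every chart. -/
def Homotopic (s w : DiffForm E M 2) : Prop :=
  ∃ h : ℝ → DiffForm E M 2,
    (∀ c, ContinuousOn (fun p : ℝ × E => (h p.1).loc c p.2)
      {p | 0 ≤ p.1 ∧ p.1 ≤ 1 ∧ p.2 ∈ c.1.target}) ∧
    (∀ t, 0 ≤ t → t ≤ 1 → (h t).Nondegenerate) ∧
    (∀ c, ∀ y ∈ c.1.target, (h 0).loc c y = s.loc c y ∧ (h 1).loc c y = w.loc c y)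

end

end Pool.Agent.TH179.SDGen
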