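import Mathlib

/-!
# Project SD: the manifold `(S³ × S⁵) # (opposite CP⁴)` in seven charts

Everything happens in `V = ℂ⁴ = ℝ³ × ℝ⁵`. The manifold `M` is the blow-up of `S³ × S⁵` at the point
`p` with coordinate `w = 0`, where `w = (a, b) ∈ ℝ³ × ℝ⁵` are the stereographic coordinates of
`(S³ ∖ pt) × (S⁵ ∖ pt)`. Charts: `inl j` (`j : Fin 4`), the four charts of the blow-up of `ℂ⁴`;
`inr 0`, `inr 1`, `inr 2`: inverted coordinates in `ℝ³`, in `ℝ⁵`, in both.
-/

open scoped ContDiff Topology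
open Set

noncomputable section

namespace Pool.Agent.TH179.SD

/-- the model space `ℂ⁴` -/
abbrev V : Type := Fin 4 → ℂ

/-- alternating forms on a real normed space -/
abbrev AltE (E : Type) [NormedAddCommGroup E] [NormedSpace ℝ E] (k : ℕ) : Type :=
  E [⋀^Fin k]→L[ℝ] ℝ

/-- alternating forms on `V` -/
abbrev Alt (k : ℕ) : Type := V [⋀^Fin k]→L[ℝ] ℝ

/-- `∑_σ sgn σ · a(v_σ0, v_σ1) b(v_σ2, v_σ3) c(v_σ4, v_σ5) d(v_σ6, v_σ7)`, that is sixteen times
the value of `a ∧ b ∧ c ∧ d` on `v`. -/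
def wedge4 {E : Type} [NormedAddCommGroup E] [NormedSpace ℝ E] (a b c d : AltE E 2)
    (v : Fin 8 → E) : ℝ :=
  ∑ σ : Equiv.Perm (Fin 8), (((Equiv.Perm.sign σ : ℤˣ) : ℤ) : ℝ) *
    (a ![v (σ 0), v (σ 1)] * b ![v (σ 2), v (σ 3)] * c ![v (σ 4), v (σ 5)] * d ![v (σ 6), v (σ 7)])

/-- the fourth power of a 2-form (times sixteen), evaluated on eight vectors -/
def pow4 {E : Type} [NormedAddCommGroup E] [NormedSpace ℝ E] (a : AltE E 2) (v : Fin 8 → E) : ℝ :=
  wedge4 a a a a v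

/-- the real basis `e₀, i e₀, e₁, i e₁, …` of `V` -/
def rb (i : Fin 8) : V :=
  Pi.single ⟨(i : ℕ) / 2, by omega⟩ (if (i : ℕ) % 2 = 0 then 1 else Complex.I)

/-- `|a|²` for `w = (a, b)`, `a = (Re w₀, Im w₀, Re w₁)` -/
def na (w : V) : ℝ := (w 0).re ^ 2 + (w 0).im ^ 2 + (w 1).re ^ 2

/-- `|b|²` for `w = (a, b)`, `b = (Im w₁, Re w₂, Im w₂, Re w₃, Im w₃)` -/
def nb (w : V) : ℝ := (w 1).im ^ 2 + (w 2).re ^ 2 + (w 2).im ^ 2 + (w 3).re ^ 2 + (w 3).im ^ 2

/-- orientation preserving inversion of `a`: `(a₁, a₂, a₃) ↦ (-a₁, a₂, a₃) / |a|²` -/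
def invA (w : V) : V :=
  ![⟨-(w 0).re / na w, (w 0).im / na w⟩, ⟨(w 1).re / na w, (w 1).im⟩, w 2, w 3]

/-- orientation preserving inversion of `b`:
`(b₁, b₂, b₃, b₄, b₅) ↦ (b₁, -b₂, b₃, b₄, b₅) / |b|²` -/
def invB (w : V) : V :=
  ![w 0, ⟨(w 1).re, (w 1).im / nb w⟩, ⟨-(w 2).re / nb w, (w 2).im / nb w⟩,
    ⟨(w 3).re / nb w, (w 3).im / nb w⟩]

/-- the blow-down map in the chart `j`: `v_j ↦ v_j`, `v_i ↦ v_j v_i` -/
def bd (j : Fin 4) (v : V) : V := fun i => if i = j then v j else v j * v i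

/-- its inverse on `w_j ≠ 0` -/
def bu (j : Fin 4) (w : V) : V := fun i => if i = j then w j else w i / w j

/-- the index set of the charts -/
abbrev Idx : Type := Fin 4 ⊕ Fin 3

/-- the part of the chart which is seen in the `w` coordinates -/
def domW : Idx → Set V
  | Sum.inl j => {v | v j ≠ 0}
  | Sum.inr 0 => {q | na q ≠ 0}
  | Sum.inr 1 => {q | nb q ≠ 0}
  | Sum.inr 2 => {q | na q ≠ 0 ∧ nb q ≠ 0}

/-- the `w` coordinates as a function of the coordinates in a chart -/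
def toW : Idx → V → V
  | Sum.inl j => bd j
  | Sum.inr 0 => invA
  | Sum.inr 1 => invB
  | Sum.inr 2 => fun q => invA (invB q)

/-- the set of all `w ≠ 0` which lie in a chart -/
def rngW : Idx → Set V
  | Sum.inl j => {w | w j ≠ 0}
  | Sum.inr 0 => {w | na w ≠ 0}
  | Sum.inr 1 => {w | nb w ≠ 0}
  | Sum.inr 2 => {w | na w ≠ 0 ∧ nb w ≠ 0}

/-- the coordinates in a chart as a function of `w` -/
def fromW : Idx → V → V
  | Sum.inl j => bu j
  | Sum.inr 0 => invA
  | Sum.inr 1 => invB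
  | Sum.inr 2 => fun q => invA (invB q)

/-- the part of the chart `c` which lies in the chart `d` -/
def O : Idx → Idx → Set V
  | Sum.inl j, Sum.inl k => if j = k then univ else {v | v k ≠ 0}
  | Sum.inr c, Sum.inr d =>
      if c = d then univ
      else if c ≠ 0 ∧ d ≠ 0 then {q | na q ≠ 0}
      else if c ≠ 1 ∧ d ≠ 1 then {q | nb q ≠ 0}
      else {q | na q ≠ 0 ∧ nb q ≠ 0}
  | c, d => {q | q ∈ domW c ∧ toW c q ∈ rngW d}

/-- the coordinate change from the chart `c` to the chart `d` -/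
def tr : Idx → Idx → V → V
  | Sum.inl j, Sum.inl k => if j = k then id else
      fun v i => if i = k then v j * v k else if i = j then (v k)⁻¹ else v i / v k
  | Sum.inr c, Sum.inr d =>
      if c = d then id
      else if c ≠ 0 ∧ d ≠ 0 then invA
      else if c ≠ 1 ∧ d ≠ 1 then invB
      else fun q => invA (invB q)
  | c, d => fun q => fromW d (toW c q)

/-- a topological space with charts having these coordinate changes -/
structure Model (M : Type) [TopologicalSpace M] where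
  /-- the charts -/
  φ : Idx → OpenPartialHomeomorph M V
  target : ∀ c, (φ c).target = univ
  cover : ∀ x, ∃ c, x ∈ (φ c).source
  overlap : ∀ c d q, (φ c).symm q ∈ (φ d).source ↔ q ∈ O c d
  trans : ∀ c d q, q ∈ O c d → φ d ((φ c).symm q) = tr c d q

/-- the family `w` of forms on `V` is a smooth `k`-form on the manifold -/
structure IsF (k : ℕ) (w : Idx → V → Alt k) : Prop where
  smooth : ∀ c, ContDiff ℝ ∞ (w c)
  compat : ∀ c d, ∀ q ∈ O c d,
    w c q = (w d (tr c d q)).compContinuousLinearMap (fderiv ℝ (tr c d) q)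

/-! ## Tasks -/

/-- G1: the manifold exists, and it is compact and Hausdorff -/
def TaskModel : Prop :=
  ∃ (M : Type) (_ : TopologicalSpace M), CompactSpace M ∧ T2Space M ∧ Nonempty (Model M)

/-- G2: the coordinate changes are smooth and orientation preserving -/
def TaskSmooth : Prop :=
  ∀ c d, IsOpen (O c d) ∧ (O c d).Nonempty ∧ ContDiffOn ℝ ∞ (tr c d) (O c d) ∧
    (∀ q ∈ O c d, tr c d q ∈ O d c ∧ tr d c (tr c d q) = q) ∧
    (∀ q ∈ O c d, 0 < (fderiv ℝ (tr c d) q).det)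

/-- G3: it is simply connected -/
def TaskSC : Prop :=
  ∀ (M : Type) [TopologicalSpace M], Nonempty (Model M) → SimplyConnectedSpace M

/-- G4: a global frame of the tangent bundle of `S³ × S⁵`, in the coordinates `w` and in the three
charts `inr c`. -/
structure Frame (T : V → V →L[ℝ] V) (TA : Fin 3 → V → V →L[ℝ] V) : Prop where
  smooth : ContDiff ℝ ∞ T
  smoothA : ∀ c, ContDiff ℝ ∞ (TA c)
  zero : T 0 = ContinuousLinearMap.id ℝ V
  det : ∀ w, 0 < (T w).det
  detA : ∀ c q, 0 < (TA c q).det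
  compat : ∀ c : Fin 3, ∀ w ∈ rngW (Sum.inr c),
    T w = (TA c (fromW (Sum.inr c) w)).comp (fderiv ℝ (fromW (Sum.inr c)) w)
  compatA : ∀ c d : Fin 3, ∀ q ∈ O (Sum.inr c) (Sum.inr d),
    TA c q = (TA d (tr (Sum.inr c) (Sum.inr d) q)).comp (fderiv ℝ (tr (Sum.inr c) (Sum.inr d)) q)

/-- G4 -/
def TaskFrame : Prop := ∃ T TA, Frame T TA

/-- a smooth almost complex structure on the manifold -/
structure IsJ (J : Idx → V → V →L[ℝ] V) : Prop where
  smooth : ∀ c, ContDiff ℝ ∞ (J c)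
  sq : ∀ c q, (J c q).comp (J c q) = -ContinuousLinearMap.id ℝ V
  compat : ∀ c d, ∀ q ∈ O c d,
    (fderiv ℝ (tr c d) q).comp (J c q) = (J d (tr c d q)).comp (fderiv ℝ (tr c d) q)

/-- G5: existence of an almost complex structure -/
def TaskJ : Prop := (∃ T TA, Frame T TA) → ∃ J, IsJ J

/-- the form `d arg v₀` on `v₀ ≠ 0` in the chart `inl 0` -/
def darg (v : V) : V →L[ℝ] ℝ :=
  Complex.imCLM.comp (((v 0)⁻¹ • (ContinuousLinearMap.proj (R := ℂ) (φ := fun _ : Fin 4 => ℂ) 0)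
    : V →L[ℂ] ℂ).restrictScalars ℝ)

/-- a covector as a 1-form -/
def one (l : V →L[ℝ] ℝ) : Alt 1 := ContinuousAlternatingMap.ofSubsingleton ℝ V ℝ (0 : Fin 1) l

/-- the part of the chart `c` lying in `S³ × S⁵` minus the point -/
def inX : Idx → Set V
  | Sum.inl j => {v | v j ≠ 0}
  | Sum.inr _ => univ

/-- G6: the closed two-form which is Poincaré dual to the exceptional divisor, with its primitives
`l` on the complement of the divisor and `n` in the chart `inl 0` -/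
structure IsAlpha (α : Idx → V → Alt 2) (l : Idx → V → Alt 1) (n : V → Alt 1) : Prop where
  form : IsF 2 α
  closed : ∀ c q, extDeriv (α c) q = 0
  nonpos : ∀ c q, pow4 (α c q) rb ≤ 0
  neg : ∃ c q, pow4 (α c q) rb < 0
  smoothl : ∀ c, ContDiffOn ℝ ∞ (l c) (inX c)
  dl : ∀ c, ∀ q ∈ inX c, extDeriv (l c) q = α c q
  compatl : ∀ c d, ∀ q ∈ O c d, q ∈ inX c →
    l c q = (l d (tr c d q)).compContinuousLinearMap (fderiv ℝ (tr c d) q)
  smoothn : ContDiff ℝ ∞ n
  dn : ∀ q, extDeriv n q = α (Sum.inl 0) q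
  diff : ∀ q : V, q 0 ≠ 0 → l (Sum.inl 0) q - n q = one (darg q)

/-- G6 -/
def TaskAlpha : Prop := ∃ α l n, IsAlpha α l n

/-- G7a: smooth cut-off functions for two open sets of the manifold -/
def TaskCut : Prop :=
  ∀ (M : Type) [TopologicalSpace M] [CompactSpace M] [T2Space M] (D : Model M) (P Q : Set M),
    IsOpen P → IsOpen Q → ∃ ρ : M → ℝ,
      (∀ c, ContDiffOn ℝ ∞ (fun q => ρ ((D.φ c).symm q)) ((D.φ c).symm ⁻¹' (P ∪ Q))) ∧
      (∀ x ∈ P, x ∉ Q → ∀ᶠ y in 𝓝 x, ρ y = 0) ∧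
      (∀ x ∈ Q, x ∉ P → ∀ᶠ y in 𝓝 x, ρ y = 1)

/-- G7: the second de Rham cohomology of the manifold is spanned by `α` -/
def TaskH2 : Prop :=
  ∀ (M : Type) [TopologicalSpace M] [CompactSpace M] [T2Space M] (_ : Model M) (α l n),
    IsAlpha α l n → ∀ w : Idx → V → Alt 2, IsF 2 w → (∀ c q, extDeriv (w c) q = 0) →
      ∃ (t : ℝ) (m : Idx → V → Alt 1), IsF 1 m ∧ ∀ c q, w c q = t • α c q + extDeriv (m c) q

/-- G8: Stokes: an exact top degree form which is nonnegative everywhere vanishes -/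
def TaskStokes : Prop :=
  ∀ (M : Type) [TopologicalSpace M] [CompactSpace M] [T2Space M] (_ : Model M)
    (β : Idx → V → Alt 7), IsF 7 β →
    (∀ c q, 0 ≤ (extDeriv (β c) q : V [⋀^Fin (7 + 1)]→L[ℝ] ℝ) rb) →
    ∀ c q, (extDeriv (β c) q : V [⋀^Fin (7 + 1)]→L[ℝ] ℝ) rb = 0

end Pool.Agent.TH179.SD
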