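import Pool.Agent.TH179.SD.Lin

/-!
# Project SD: Poincaré lemmas and the reduction of G7, the almost symplectic form
-/

open scoped ContDiff Topology
open Set

noncomputable section

namespace Pool.Agent.TH179.SD

/-- G7b: a closed 1-form on the complement of a subspace of real codimension at least 3 is exact -/
def TaskP1 : Prop :=
  ∀ S : Submodule ℝ V, Module.finrank ℝ S ≤ 5 → ∀ w : V → Alt 1,
    ContDiffOn ℝ ∞ w {q | q ∉ S} → (∀ q, q ∉ S → extDeriv w q = 0) →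
    ∃ g : V → ℝ, ContDiffOn ℝ ∞ g {q | q ∉ S} ∧ ∀ q, q ∉ S → w q = one (fderiv ℝ g q)

/-- G7c: a closed 1-form on `v₀ ≠ 0` is a multiple of `d arg v₀` plus an exact form -/
def TaskP1c : Prop :=
  ∀ w : V → Alt 1, ContDiffOn ℝ ∞ w {q | q 0 ≠ 0} → (∀ q : V, q 0 ≠ 0 → extDeriv w q = 0) →
    ∃ (t : ℝ) (g : V → ℝ), ContDiffOn ℝ ∞ g {q | q 0 ≠ 0} ∧
      ∀ q : V, q 0 ≠ 0 → w q = t • one (darg q) + one (fderiv ℝ g q)

/-- G7d: the Poincaré lemma for 2-forms on `V` -/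
def TaskP2 : Prop :=
  ∀ w : V → Alt 2, ContDiff ℝ ∞ w → (∀ q, extDeriv w q = 0) →
    ∃ m : V → Alt 1, ContDiff ℝ ∞ m ∧ ∀ q, extDeriv m q = w q

/-- G7e -/
def TaskH2' : Prop := TaskSmooth → TaskP1 → TaskP1c → TaskP2 → TaskCut → TaskH2

/-- G12: an almost symplectic form which induces the orientation of the charts -/
def TaskSigma : Prop :=
  ∀ (M : Type) [TopologicalSpace M] [CompactSpace M] [T2Space M] (_ : Model M),
    PowProps → TaskSmooth → ∀ J, IsJ J →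
    ∃ s : Idx → V → Alt 2, IsF 2 s ∧ (∀ c q, pow4 (s c q) rb ≠ 0) ∧
      ∀ c q (u : V), u ≠ 0 → 0 < s c q ![u, J c q u]

end Pool.Agent.TH179.SD
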