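import Pool.Agent.TH179.SD.Geo

/-!
# Project SD: the K-theoretic part (bundles over `CP⁴` as equivariant projections over `S⁹`)
-/

open scoped ContDiff Topology
open Set MeasureTheory

noncomputable section

namespace Pool.Agent.TH179.SD

/-- `ℂ⁵` -/
abbrev C5 : Type := Fin 5 → ℂ

/-- the unit sphere of `ℂ⁵` -/
abbrev Z : Type := {z : C5 // ∑ i, ‖z i‖ ^ 2 = 1}

/-- scalar multiplication on the sphere -/
def rot (t : Circle) (z : Z) : Z := ⟨fun i => (t : ℂ) * z.1 i, by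
  have h := z.2
  simp only [norm_mul, Circle.norm_coe, one_mul]
  exact h⟩

/-- complex conjugation on the sphere -/
def cj (z : Z) : Z := ⟨fun i => (starRingEnd ℂ) (z.1 i), by
  have h := z.2
  simpa using h⟩

/-- A vector bundle over `CP⁴`, as a continuous family of orthogonal projections over `S⁹` which is
equivariant for the weights `a`. -/
structure Bun where
  ι : Type
  fin : Fintype ι
  dec : DecidableEq ι
  a : ι → ℤ
  e : Z → Matrix ι ι ℂ
  cont : Continuous e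
  idem : ∀ z, e z * e z = e z
  herm : ∀ z, (e z).conjTranspose = e z
  equiv : ∀ (t : Circle) z i j, e (rot t z) i j = (t : ℂ) ^ (a i - a j) * e z i j

attribute [instance] Bun.fin Bun.dec

/-- isomorphism of bundles -/
def Bun.Iso (A B : Bun) : Prop :=
  ∃ (u : Z → Matrix B.ι A.ι ℂ) (v : Z → Matrix A.ι B.ι ℂ), Continuous u ∧ Continuous v ∧
    (∀ z, v z * u z = A.e z) ∧ (∀ z, u z * v z = B.e z) ∧
    (∀ (t : Circle) z i j, u (rot t z) i j = (t : ℂ) ^ (B.a i - A.a j) * u z i j) ∧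
    (∀ (t : Circle) z i j, v (rot t z) i j = (t : ℂ) ^ (A.a i - B.a j) * v z i j)

/-- direct sum -/
def Bun.sum (A B : Bun) : Bun where
  ι := A.ι ⊕ B.ι
  fin := inferInstance
  dec := inferInstance
  a := Sum.elim A.a B.a
  e z := Matrix.fromBlocks (A.e z) 0 0 (B.e z)
  cont := A.cont.matrix_fromBlocks continuous_const continuous_const B.cont
  idem z := by
    rw [Matrix.fromBlocks_multiply]
    simp [A.idem z, B.idem z]
  herm z := by
    rw [Matrix.fromBlocks_conjTranspose]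
    simp [A.herm z, B.herm z]
  equiv t z i j := by
    rcases i with i | i <;> rcases j with j | j <;> simp [A.equiv t z, B.equiv t z]

/-- tensor product with a power of the tautological bundle -/
def Bun.shift (A : Bun) (m : ℤ) : Bun where
  ι := A.ι
  fin := A.fin
  dec := A.dec
  a i := A.a i + m
  e := A.e
  cont := A.cont
  idem := A.idem
  herm := A.herm
  equiv t z i j := by
    rw [A.equiv t z i j]
    congr 2
    ring

/-- sum of line bundles -/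
def Bun.triv (ι : Type) [Fintype ι] [DecidableEq ι] (a : ι → ℤ) : Bun where
  ι := ι
  fin := inferInstance
  dec := inferInstance
  a := a
  e _ := 1
  cont := continuous_const
  idem _ := by simp
  herm _ := by simp
  equiv t z i j := by
    by_cases h : i = j
    · subst h; simp
    · simp [Matrix.one_apply_ne h]

/-- the conjugate bundle -/
def Bun.conj (A : Bun) : Bun where
  ι := A.ι
  fin := A.fin
  dec := A.dec
  a i := -A.a i
  e z := (A.e z).map (starRingEnd ℂ)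
  cont := by
    refine continuous_matrix fun i j => ?_
    exact Complex.continuous_conj.comp ((continuous_apply_apply i j).comp A.cont)
  idem z := by
    have h := A.idem z
    have : ((A.e z).map (starRingEnd ℂ)) * ((A.e z).map (starRingEnd ℂ)) =
        (A.e z * A.e z).map (starRingEnd ℂ) := by
      rw [Matrix.map_mul]
    rw [this, h]
  herm z := by
    have h := A.herm z
    ext i j
    have := congrFun (congrFun h i) j
    simp only [Matrix.conjTranspose_apply, Matrix.map_apply] at this ⊢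
    simpa using congrArg (starRingEnd ℂ) this
  equiv t z i j := by
    simp only [Matrix.map_apply]
    rw [A.equiv t z i j, map_mul, map_zpow₀]
    congr 1
    rw [← Circle.coe_inv_eq_conj, Circle.coe_inv, inv_zpow, ← zpow_neg]
    congr 1
    ring

/-- the bundle pulled back under `z ↦ conj z` -/
def Bun.flat (A : Bun) : Bun where
  ι := A.ι
  fin := A.fin
  dec := A.dec
  a i := -A.a i
  e z := A.e (cj z)
  cont := by
    refine A.cont.comp (Continuous.subtype_mk ?_ _)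
    exact continuous_pi fun i =>
      Complex.continuous_conj.comp ((continuous_apply i).comp continuous_subtype_val)
  idem z := A.idem _
  herm z := A.herm _
  equiv t z i j := by
    have h : cj (rot t z) = rot t⁻¹ (cj z) := by
      apply Subtype.ext
      funext i
      simp [cj, rot, ← Circle.coe_inv_eq_conj]
    rw [h, A.equiv]
    congr 1
    rw [Circle.coe_inv, inv_zpow, ← zpow_neg]
    congr 1
    ring

/-- the Hilbert polynomial of `CP⁴`: the dimension of the space of forms of degree `k` in five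
variables -/
def Bq (k : ℚ) : ℚ := (k + 1) * (k + 2) * (k + 3) * (k + 4) / 24

/-- A bundle over `CP⁴ × CP⁴` -/
structure Bun2 where
  ι : Type
  fin : Fintype ι
  dec : DecidableEq ι
  a : ι → ℤ
  b : ι → ℤ
  e : Z × Z → Matrix ι ι ℂ
  cont : Continuous e
  idem : ∀ z, e z * e z = e z
  herm : ∀ z, (e z).conjTranspose = e z
  equiv : ∀ (s t : Circle) (z : Z × Z) i j,
    e (rot s z.1, rot t z.2) i j = (s : ℂ) ^ (a i - a j) * (t : ℂ) ^ (b i - b j) * e z i j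

attribute [instance] Bun2.fin Bun2.dec

/-- isomorphism of bundles -/
def Bun2.Iso (A B : Bun2) : Prop :=
  ∃ (u : Z × Z → Matrix B.ι A.ι ℂ) (v : Z × Z → Matrix A.ι B.ι ℂ), Continuous u ∧ Continuous v ∧
    (∀ z, v z * u z = A.e z) ∧ (∀ z, u z * v z = B.e z) ∧
    (∀ (s t : Circle) z i j, u (rot s z.1, rot t z.2) i j =
      (s : ℂ) ^ (B.a i - A.a j) * (t : ℂ) ^ (B.b i - A.b j) * u z i j) ∧
    (∀ (s t : Circle) z i j, v (rot s z.1, rot t z.2) i j =
      (s : ℂ) ^ (A.a i - B.a j) * (t : ℂ) ^ (A.b i - B.b j) * v z i j)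

/-- `E` is a direct sum of `A` and `B` -/
def Bun2.IsSum (E A B : Bun2) : Prop :=
  ∃ f : E.ι ≃ A.ι ⊕ B.ι, (∀ i, E.a i = Sum.elim A.a B.a (f i)) ∧
    (∀ i, E.b i = Sum.elim A.b B.b (f i)) ∧
    ∀ z, E.e z = (Matrix.fromBlocks (A.e z) 0 0 (B.e z)).submatrix f f

/-- `E` is `A` with all weights shifted by `(m, n)` -/
def Bun2.IsShift (E A : Bun2) (m n : ℤ) : Prop :=
  ∃ f : E.ι ≃ A.ι, (∀ i, E.a i = A.a (f i) + m) ∧ (∀ i, E.b i = A.b (f i) + n) ∧
    ∀ z, E.e z = (A.e z).submatrix f f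

/-- `E` is the pullback of `A` under the first projection -/
def Bun2.IsX (E : Bun2) (A : Bun) : Prop :=
  ∃ f : E.ι ≃ A.ι, (∀ i, E.a i = A.a (f i)) ∧ (∀ i, E.b i = 0) ∧
    ∀ z, E.e z = (A.e z.1).submatrix f f

/-- `E` is the pullback of `A` under the second projection -/
def Bun2.IsY (E : Bun2) (A : Bun) : Prop :=
  ∃ f : E.ι ≃ A.ι, (∀ i, E.a i = 0) ∧ (∀ i, E.b i = A.a (f i)) ∧
    ∀ z, E.e z = (A.e z.2).submatrix f f

/-- The existence of the index (Hilbert function) of bundles over `CP⁴` and `CP⁴ × CP⁴`. -/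
structure IndexData (F : Bun2 → ℤ → ℤ → ℤ) (f : Bun → ℤ → ℤ) : Prop where
  iso2 : ∀ A B : Bun2, A.Iso B → ∃ K : ℤ, ∀ k l, K ≤ k → K ≤ l → F A k l = F B k l
  sum2 : ∀ E A B : Bun2, E.IsSum A B → ∃ K : ℤ, ∀ k l, K ≤ k → K ≤ l →
    F E k l = F A k l + F B k l
  shift2 : ∀ (E A : Bun2) (m n : ℤ), E.IsShift A m n → ∃ K : ℤ, ∀ k l, K ≤ k → K ≤ l →
    F E k l = F A (k + m) (l + n)
  x : ∀ (E : Bun2) (A : Bun), E.IsX A → ∃ K : ℤ, ∀ k l : ℤ, K ≤ k → K ≤ l →
    (F E k l : ℚ) = f A k * Bq l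
  y : ∀ (E : Bun2) (A : Bun), E.IsY A → ∃ K : ℤ, ∀ k l : ℤ, K ≤ k → K ≤ l →
    (F E k l : ℚ) = Bq k * f A l
  iso : ∀ A B : Bun, A.Iso B → ∃ K : ℤ, ∀ k, K ≤ k → f A k = f B k
  sum : ∀ A B : Bun, ∃ K : ℤ, ∀ k, K ≤ k → f (A.sum B) k = f A k + f B k
  shift : ∀ (A : Bun) (m : ℤ), ∃ K : ℤ, ∀ k, K ≤ k → f (A.shift m) k = f A (k + m)
  triv : ∀ (ι : Type) [Fintype ι] [DecidableEq ι] (a : ι → ℤ), ∃ K : ℤ, ∀ k : ℤ, K ≤ k →
    (f (Bun.triv ι a) k : ℚ) = ∑ i, Bq (k + a i)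
  flat : ∀ A : Bun, ∃ K : ℤ, ∀ k, K ≤ k → f A.flat k = f A.conj k

/-- The Hilbert function of bundles over `CP⁴`, with Serre duality. -/
structure DualData (f : Bun → ℤ → ℤ) : Prop where
  iso : ∀ A B : Bun, A.Iso B → ∃ K : ℤ, ∀ k, K ≤ k → f A k = f B k
  sum : ∀ A B : Bun, ∃ K : ℤ, ∀ k, K ≤ k → f (A.sum B) k = f A k + f B k
  shift : ∀ (A : Bun) (m : ℤ), ∃ K : ℤ, ∀ k, K ≤ k → f (A.shift m) k = f A (k + m)
  triv : ∀ (ι : Type) [Fintype ι] [DecidableEq ι] (a : ι → ℤ), ∃ K : ℤ, ∀ k : ℤ, K ≤ k →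
    (f (Bun.triv ι a) k : ℚ) = ∑ i, Bq (k + a i)
  dual : ∀ A : Bun, ∃ P : Polynomial ℚ, P.natDegree ≤ 4 ∧ ∃ K : ℤ, ∀ k : ℤ, K ≤ k →
    (f A k : ℚ) = P.eval (k : ℚ) ∧ (f A.conj k : ℚ) = P.eval (-(k : ℚ) - 5)

/-! ### analysis -/

/-- monomials on the sphere -/
def mono (α : Fin 5 → ℕ) (z : Z) : ℂ := ∏ i, z.1 i ^ α i

/-- the invariant probability measure on the sphere, described by its moments -/
structure Mom (μ : Measure Z) : Prop where
  prob : IsProbabilityMeasure μ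
  mom : ∀ α β : Fin 5 → ℕ, ∫ z, mono α z * (starRingEnd ℂ) (mono β z) ∂μ =
    if α = β then ((∏ i, ((α i).factorial : ℂ)) * 24) / (((∑ i, α i) + 4).factorial : ℂ) else 0

/-- polynomials of degree `k` on the sphere -/
def poly1 (k : ℤ) : Submodule ℂ (Z → ℂ) :=
  Submodule.span ℂ {u | ∃ α : Fin 5 → ℕ, ((∑ i, α i : ℕ) : ℤ) = k ∧ u = mono α}

/-- polynomials of bidegree `(k, l)` -/
def poly2 (k l : ℤ) : Submodule ℂ (Z × Z → ℂ) :=
  Submodule.span ℂ {u | ∃ α β : Fin 5 → ℕ, ((∑ i, α i : ℕ) : ℤ) = k ∧ ((∑ i, β i : ℕ) : ℤ) = l ∧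
    u = fun p => mono α p.1 * mono β p.2}

/-- asymptotic multiplicativity of Toeplitz quantization -/
structure Asym (μ : Measure Z) : Prop where
  one : ∀ (m : ℤ) (g : Z → ℂ), Continuous g →
    (∀ (t : Circle) z, g (rot t z) = (t : ℂ) ^ m * g z) → ∀ ε : ℝ, 0 < ε → ∃ K : ℤ, ∀ k, K ≤ k →
      ∀ u ∈ poly1 k, ∃ v ∈ poly1 (k + m), ∫ z, ‖g z * u z - v z‖ ^ 2 ∂μ ≤ ε * ∫ z, ‖u z‖ ^ 2 ∂μ
  two : ∀ (m n : ℤ) (g : Z × Z → ℂ), Continuous g →
    (∀ (s t : Circle) z, g (rot s z.1, rot t z.2) = (s : ℂ) ^ m * (t : ℂ) ^ n * g z) →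
    ∀ ε : ℝ, 0 < ε → ∃ K : ℤ, ∀ k l, K ≤ k → K ≤ l → ∀ u ∈ poly2 k l,
      ∃ v ∈ poly2 (k + m) (l + n),
        ∫ z, ‖g z * u z - v z‖ ^ 2 ∂(μ.prod μ) ≤ ε * ∫ z, ‖u z‖ ^ 2 ∂(μ.prod μ)

/-! ### the two obstructions -/

/-- the circle action with weights `(-1, 1, 1, 1, 1)` -/
def rho (t : Circle) (z : C5) : C5 :=
  fun i => if i = 0 then (starRingEnd ℂ) (t : ℂ) * z i else (t : ℂ) * z i

/-- the unit sphere -/
def sph : Set C5 := {z | ∑ i, ‖z i‖ ^ 2 = 1}

/-- a field of 2-forms on the complement of the tautological bundle, equivariant, of the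
orientation opposite to the complex one -/
structure OmegaBad (Ω : C5 → AltE C5 2) : Prop where
  cont : ContinuousOn Ω sph
  equiv : ∀ (t : Circle), ∀ z ∈ sph, ∀ u v, Ω (rho t z) ![rho t u, rho t v] = Ω z ![u, v]
  neg : ∀ z ∈ sph, ∃ (Φ : C5 →L[ℂ] V) (A : Alt 2), (∀ v, Φ v = 0 ↔ ∃ c : ℂ, v = c • z) ∧
    pow4 A rb < 0 ∧ ∀ u v, Ω z ![u, v] = A ![Φ u, Φ v]

/-- the Hermitian product -/
def hp (z u : C5) : ℂ := ∑ i, (starRingEnd ℂ) (z i) * u i

/-- a field of orthogonal complex structures on the complement of the tautological bundle,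
equivariant, of the orientation opposite to the complex one -/
structure JBad (J : C5 → C5 →L[ℝ] C5) : Prop where
  cont : ContinuousOn J sph
  zero : ∀ z ∈ sph, ∀ c : ℂ, J z (c • z) = 0
  perp : ∀ z ∈ sph, ∀ u, hp z (J z u) = 0
  sq : ∀ z ∈ sph, ∀ u, hp z u = 0 → J z (J z u) = -u
  isom : ∀ z ∈ sph, ∀ u, hp z u = 0 → ∑ i, ‖J z u i‖ ^ 2 = ∑ i, ‖u i‖ ^ 2
  equiv : ∀ (t : Circle), ∀ z ∈ sph, ∀ u, J (rho t z) (rho t u) = rho t (J z u)
  neg : ∀ z ∈ sph, ∃ (L : V →L[ℝ] C5) (Φ : C5 →L[ℂ] V), (∀ v, Φ v = 0 ↔ ∃ c : ℂ, v = c • z) ∧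
    (∀ v, hp z (L v) = 0) ∧
    (∀ k : Fin 4, L (Pi.single k Complex.I) = J z (L (Pi.single k 1))) ∧
    ((Φ.restrictScalars ℝ).comp L).det < 0

/-! ## Tasks -/

/-- K1 -/
def TaskMom : Prop := ∃ μ : Measure Z, Mom μ

/-- K2 -/
def TaskAsym : Prop := ∀ μ : Measure Z, Mom μ → Asym μ

/-- K3 -/
def TaskIndex : Prop := ∀ μ : Measure Z, Mom μ → Asym μ → ∃ F f, IndexData F f

/-- K4 -/
def TaskDual : Prop := ∀ F f, IndexData F f → DualData f

/-- K5 -/
def TaskNoJ : Prop := (∃ f, DualData f) → ¬ ∃ J, JBad J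

/-- polar decomposition of skew symmetric matrices -/
def PolarProp (n : ℕ) : Prop :=
  ∃ pol : Matrix (Fin n) (Fin n) ℝ → Matrix (Fin n) (Fin n) ℝ,
    ContinuousOn pol {A | A.transpose = -A ∧ A.det ≠ 0} ∧
    ∀ A : Matrix (Fin n) (Fin n) ℝ, A.transpose = -A → A.det ≠ 0 →
      (pol A).transpose = -pol A ∧ pol A * pol A = -1 ∧
      (∃ P : Matrix (Fin n) (Fin n) ℝ, P.PosDef ∧ A = pol A * P ∧ pol A * P = P * pol A) ∧
      (∀ J P : Matrix (Fin n) (Fin n) ℝ, J.transpose = -J → J * J = -1 → P.PosDef →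
        A = J * P → J * P = P * J → J = pol A)

/-- L1 -/
def TaskPolar : Prop := ∀ n, PolarProp n

/-- K6 -/
def TaskJOmega : Prop := PolarProp 10 → (¬ ∃ J, JBad J) → ¬ ∃ Ω, OmegaBad Ω

end Pool.Agent.TH179.SD
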