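import Pool.Agent.TH179.SD.Kth

/-!
# Project SD: linear algebra, wedge powers, homotopy tasks
-/

open scoped ContDiff Topology
open Set

noncomputable section

namespace Pool.Agent.TH179.SD

/-- L2: basic facts on the fourth power of a 2-form on `V` -/
structure PowProps : Prop where
  comp : ∀ (a b c d : Alt 2) (L : V →L[ℝ] V),
    wedge4 (a.compContinuousLinearMap L) (b.compContinuousLinearMap L)
      (c.compContinuousLinearMap L) (d.compContinuousLinearMap L) rb = L.det * wedge4 a b c d rb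
  nondeg : ∀ a : Alt 2, pow4 a rb ≠ 0 ↔ ∀ u : V, (∀ v, a ![u, v] = 0) → u = 0
  /-- the value on a form which is diagonal in the standard basis -/
  diag : ∀ (a : Alt 2) (d : Fin 4 → ℝ),
    (∀ (i j : Fin 4) (x y : ℂ), a ![Pi.single i x, Pi.single j y] =
      if i = j then d i * ((starRingEnd ℂ) x * y).im else 0) → pow4 a rb = 384 * ∏ k, d k
  symm12 : ∀ (a b c d : Alt 2) (v : Fin 8 → V), wedge4 a b c d v = wedge4 b a c d v
  symm23 : ∀ (a b c d : Alt 2) (v : Fin 8 → V), wedge4 a b c d v = wedge4 a c b d v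
  symm34 : ∀ (a b c d : Alt 2) (v : Fin 8 → V), wedge4 a b c d v = wedge4 a b d c v
  add : ∀ (a a' b c d : Alt 2) (v : Fin 8 → V),
    wedge4 (a + a') b c d v = wedge4 a b c d v + wedge4 a' b c d v
  smul : ∀ (r : ℝ) (a b c d : Alt 2) (v : Fin 8 → V), wedge4 (r • a) b c d v = r * wedge4 a b c d v
  cont : Continuous fun a : Alt 2 => pow4 a rb

/-- L2 -/
def TaskPow : Prop := PowProps

/-- L3: a natural seven-form `μ ∧ a ∧ b ∧ c` with `d(μ ∧ a ∧ b ∧ c) = dμ ∧ a ∧ b ∧ c` for closed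
`a, b, c`. -/
def TaskWedge : Prop :=
  ∃ W : Alt 1 → Alt 2 → Alt 2 → Alt 2 → Alt 7,
    ContDiff ℝ ∞ (fun p : Alt 1 × Alt 2 × Alt 2 × Alt 2 => W p.1 p.2.1 p.2.2.1 p.2.2.2) ∧
    (∀ (m : Alt 1) (a b c : Alt 2) (L : V →L[ℝ] V),
      W (m.compContinuousLinearMap L) (a.compContinuousLinearMap L)
        (b.compContinuousLinearMap L) (c.compContinuousLinearMap L) =
      (W m a b c).compContinuousLinearMap L) ∧
    ∀ (m : V → Alt 1) (a b c : V → Alt 2), ContDiff ℝ ∞ m → ContDiff ℝ ∞ a → ContDiff ℝ ∞ b →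
      ContDiff ℝ ∞ c → (∀ q, extDeriv a q = 0) → (∀ q, extDeriv b q = 0) →
      (∀ q, extDeriv c q = 0) → ∀ q (v : Fin 8 → V),
        (extDeriv (fun y => W (m y) (a y) (b y) (c y)) q : V [⋀^Fin (7 + 1)]→L[ℝ] ℝ) v =
          wedge4 (extDeriv m q) (a q) (b q) (c q) v

/-- the 2-forms on `V` with negative fourth power -/
abbrev NegForm : Type := {a : Alt 2 // pow4 a rb < 0}

/-- every continuous map from the unit sphere of `ℝ^{m+1}` to `Y` is homotopic to a constant -/
def NullSph (m : ℕ) (Y : Type) [TopologicalSpace Y] : Prop :=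
  ∀ g : C(Metric.sphere (0 : EuclideanSpace ℝ (Fin (m + 1))) 1, Y),
    ∃ y, ContinuousMap.Homotopic g (ContinuousMap.const _ y)

/-- L4: `π₃` and `π₅` of the space of negative forms vanish -/
def TaskPi : Prop := PolarProp 8 → PowProps → NullSph 3 NegForm ∧ NullSph 5 NegForm

/-- the boundary of the product of the unit balls in `ℝ³ × ℝ⁵` -/
def bdry : Set V := {w | max (na w) (nb w) = 1}

/-- the restriction to `bdry` of the map given by `G` in the three charts of `S³ × S⁵ ∖ p` is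
homotopic to a constant map, through `H` -/
structure IsNull {Y : Type} [TopologicalSpace Y] (G : Fin 3 → V → Y) (H : ℝ → V → Y) (y0 : Y) :
    Prop where
  cont : ContinuousOn (fun p : ℝ × V => H p.1 p.2) (Icc 0 1 ×ˢ bdry)
  zero : ∀ (c : Fin 3), ∀ w ∈ bdry, w ∈ rngW (Sum.inr c) →
    H 0 w = G c (fromW (Sum.inr c) w)
  one : ∀ w ∈ bdry, H 1 w = y0

/-- G9 -/
def TaskNull : Prop :=
  ∀ (Y : Type) [TopologicalSpace Y], NullSph 3 Y → NullSph 5 Y → ∀ G : Fin 3 → V → Y,
    (∀ c, Continuous (G c)) →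
    (∀ c d : Fin 3, ∀ q ∈ O (Sum.inr c) (Sum.inr d),
      G c q = G d (tr (Sum.inr c) (Sum.inr d) q)) →
    ∃ H y0, IsNull G H y0

/-- G10: from a nondegenerate two-form with negative fourth power on the manifold to a field of
forms over the sphere -/
def TaskGlue : Prop :=
  PowProps → TaskSmooth → (∀ G : Fin 3 → V → NegForm, (∀ c, Continuous (G c)) →
    (∀ c d : Fin 3, ∀ q ∈ O (Sum.inr c) (Sum.inr d),
      G c q = G d (tr (Sum.inr c) (Sum.inr d) q)) → ∃ H y0, IsNull G H y0) →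
  ∀ T TA, Frame T TA → ∀ w : Idx → V → Alt 2, IsF 2 w → (∀ c q, pow4 (w c q) rb < 0) →
    ∃ Ω, OmegaBad Ω

end Pool.Agent.TH179.SD
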