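import Pool.Agent.TH179.SD.Geo2

/-!
# Smooth manifolds, differential forms, almost complex structures: definitions, and the manifold
structure on a `Model`
-/

open scoped ContDiff Topology Manifold
open Set

noncomputable section

namespace Pool.Agent.TH179.SD

section defs

variable (M : Type) [TopologicalSpace M] [ChartedSpace V M]

/-- A smooth differential `k`-form on `M`: for each chart of the atlas its expression in the
coordinates, smooth on the image of the chart, compatible with all coordinate changes. -/
structure DForm (k : ℕ) where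
  /-- the expression of the form in a chart -/
  loc : atlas V M → V → V [⋀^Fin k]→L[ℝ] ℝ
  smooth : ∀ c, ContDiffOn ℝ ∞ (loc c) c.1.target
  compat : ∀ c d, ∀ y ∈ (c.1.symm.trans d.1).source,
    loc c y = (loc d ((c.1.symm.trans d.1) y)).compContinuousLinearMap
      (fderiv ℝ (c.1.symm.trans d.1) y)

/-- An almost complex structure on `M`: a smooth field of endomorphisms `J` of the tangent spaces
with `J² = -1`, given by its expressions in the charts. -/
structure ACS where
  /-- the expression of the field in a chart -/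
  loc : atlas V M → V → V →L[ℝ] V
  smooth : ∀ c, ContDiffOn ℝ ∞ (loc c) c.1.target
  sq : ∀ c, ∀ y ∈ c.1.target, ∀ u, loc c y (loc c y u) = -u
  compat : ∀ c d, ∀ y ∈ (c.1.symm.trans d.1).source, ∀ u,
    fderiv ℝ (c.1.symm.trans d.1) y (loc c y u) =
      loc d ((c.1.symm.trans d.1) y) (fderiv ℝ (c.1.symm.trans d.1) y u)

variable {M}

/-- The form is closed. -/
def DForm.Closed {k : ℕ} (w : DForm M k) : Prop :=
  ∀ c, ∀ y ∈ c.1.target, extDeriv (w.loc c) y = 0

/-- The two-form is nondegenerate at every point. -/
def DForm.Nondegenerate (w : DForm M 2) : Prop :=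
  ∀ c, ∀ y ∈ c.1.target, ∀ u, (∀ v, w.loc c y ![u, v] = 0) → u = 0

/-- The fourth exterior power of the two-form is exact: it is the exterior derivative of a
seven-form. -/
def DForm.Pow4Exact (w : DForm M 2) : Prop :=
  ∃ b : DForm M 7, ∀ c, ∀ y ∈ c.1.target, ∀ v : Fin 8 → V,
    pow4 (w.loc c y) v = extDeriv (b.loc c) y v

end defs

section model

variable {M : Type} [TopologicalSpace M] (D : Model M)

/-- the charted space structure -/
@[reducible] def Model.charted : ChartedSpace V M where
  atlas := Set.range D.φ
  chartAt x := D.φ (D.cover x).choose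
  mem_chart_source x := (D.cover x).choose_spec
  chart_mem_atlas x := ⟨_, rfl⟩

theorem Model.source_eq (c d : Idx) : ((D.φ c).symm.trans (D.φ d)).source = O c d := by
  ext q
  rw [OpenPartialHomeomorph.trans_source]
  simp only [OpenPartialHomeomorph.symm_source, D.target, Set.univ_inter, Set.mem_preimage]
  exact D.overlap c d q

theorem Model.trans_eqOn (c d : Idx) : EqOn ((D.φ c).symm.trans (D.φ d)) (tr c d) (O c d) := by
  intro q hq
  exact D.trans c d q hq

theorem Model.manifold (hS : TaskSmooth) :
    letI := D.charted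
    IsManifold 𝓘(ℝ, V) ∞ M := by
  letI := D.charted
  apply isManifold_of_contDiffOn
  rintro e e' ⟨c, rfl⟩ ⟨d, rfl⟩
  have h1 := (hS c d).2.2.1
  have h2 : (𝓘(ℝ, V).symm ⁻¹' ((D.φ c).symm.trans (D.φ d)).source ∩ range 𝓘(ℝ, V)) = O c d := by
    rw [D.source_eq c d]
    simp
  rw [h2]
  refine h1.congr ?_
  intro q hq
  simpa using D.trans_eqOn c d hq

theorem Model.fderiv_eq (hS : TaskSmooth) {c d : Idx} {q : V} (hq : q ∈ O c d) :
    fderiv ℝ ((D.φ c).symm.trans (D.φ d)) q = fderiv ℝ (tr c d) q := by
  apply Filter.EventuallyEq.fderiv_eq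
  filter_upwards [(hS c d).1.mem_nhds hq] with x hx
  exact D.trans_eqOn c d hx

/-- the family of a form -/
def Model.fam {k : ℕ} : letI := D.charted; DForm M k → Idx → V → Alt k :=
  letI := D.charted
  fun w c => w.loc ⟨D.φ c, ⟨c, rfl⟩⟩

theorem Model.fam_isF (hS : TaskSmooth) {k : ℕ} :
    letI := D.charted
    ∀ w : DForm M k, IsF k (D.fam w) := by
  letI := D.charted
  intro w
  refine ⟨fun c => ?_, fun c d q hq => ?_⟩
  · have := w.smooth ⟨D.φ c, ⟨c, rfl⟩⟩
    rw [D.target, contDiffOn_univ] at this
    exact this
  · have h := w.compat ⟨D.φ c, ⟨c, rfl⟩⟩ ⟨D.φ d, ⟨d, rfl⟩⟩ q (by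
      rw [D.source_eq c d]; exact hq)
    have e1 : ((D.φ c).symm.trans (D.φ d)) q = tr c d q := D.trans_eqOn c d hq
    rw [D.fderiv_eq hS hq, e1] at h
    exact h

/-- the index of a chart -/
def Model.idx : letI := D.charted; atlas V M → Idx :=
  letI := D.charted
  fun c => (show ∃ i, D.φ i = c.1 from c.2).choose

theorem Model.idx_spec : letI := D.charted; ∀ c : atlas V M, D.φ (D.idx c) = c.1 := by
  letI := D.charted
  exact fun c => (show ∃ i, D.φ i = c.1 from c.2).choose_spec

/-- the form of a family -/
def Model.form (hS : TaskSmooth) {k : ℕ} (w : Idx → V → Alt k) (hw : IsF k w) :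
    letI := D.charted; DForm M k :=
  letI := D.charted
  { loc := fun c => w (D.idx c)
    smooth := fun c => (hw.smooth _).contDiffOn
    compat := fun c d y hy => by
      have hc := D.idx_spec c
      have hd := D.idx_spec d
      rw [← hc, ← hd] at hy ⊢
      have hy' : y ∈ O (D.idx c) (D.idx d) := by rw [← D.source_eq]; exact hy
      rw [D.fderiv_eq hS hy', D.trans_eqOn _ _ hy']
      exact hw.compat _ _ y hy' }

/-- the almost complex structure of a family -/
def Model.acs (hS : TaskSmooth) (J : Idx → V → V →L[ℝ] V) (hJ : IsJ J) :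
    letI := D.charted; ACS M :=
  letI := D.charted
  { loc := fun c => J (D.idx c)
    smooth := fun c => (hJ.smooth _).contDiffOn
    sq := fun c y _ u => by
      have := congrArg (fun L : V →L[ℝ] V => L u) (hJ.sq (D.idx c) y)
      simpa using this
    compat := fun c d y hy u => by
      have hc := D.idx_spec c
      have hd := D.idx_spec d
      rw [← hc, ← hd] at hy ⊢
      have hy' : y ∈ O (D.idx c) (D.idx d) := by rw [← D.source_eq]; exact hy
      rw [D.fderiv_eq hS hy', D.trans_eqOn _ _ hy']
      have := congrArg (fun L : V →L[ℝ] V => L u) (hJ.compat _ _ y hy')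
      simpa using this }

end model

end Pool.Agent.TH179.SD
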